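import Pool.Agent.H82.RA.Defs

set_option autoImplicit false

namespace Pool.Agent.H82.RA

/-! ### Classes with superpolynomially many types: truncated arithmetic -/

/-- The signature with `<`, `U`, constants `z`, `t`, `l`, `m`, unary functions `s`, `e` and binary
functions `add`, `mul`. -/
def sigA : Sig := ⟨[2, 1], [0, 0, 0, 0, 1, 1, 2, 2]⟩

def aLt : sigA.lang.Relations 2 := ⟨(0 : Fin 2), rfl⟩
def aU : sigA.lang.Relations 1 := ⟨(1 : Fin 2), rfl⟩
def aZ : sigA.lang.Functions 0 := ⟨(0 : Fin 8), rfl⟩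
def aT : sigA.lang.Functions 0 := ⟨(1 : Fin 8), rfl⟩
def aL : sigA.lang.Functions 0 := ⟨(2 : Fin 8), rfl⟩
def aM : sigA.lang.Functions 0 := ⟨(3 : Fin 8), rfl⟩
def aS : sigA.lang.Functions 1 := ⟨(4 : Fin 8), rfl⟩
def aE : sigA.lang.Functions 1 := ⟨(5 : Fin 8), rfl⟩
def aAdd : sigA.lang.Functions 2 := ⟨(6 : Fin 8), rfl⟩
def aMul : sigA.lang.Functions 2 := ⟨(7 : Fin 8), rfl⟩

open FirstOrder FirstOrder.Language in
/-- The constant symbols as terms. -/
def cst {α : Type} (c : sigA.lang.Functions 0) : sigA.lang.Term α := Term.func c ![]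

/-- The term `l ^ k`. -/
def pwT {α : Type} : ℕ → sigA.lang.Term α
  | 0 => aS.apply₁ (cst aZ)
  | k + 1 => aMul.apply₂ (pwT k) (cst aL)

open FirstOrder FirstOrder.Language in
/-- The axioms of the class: the elements being numbered from below, `z` is the least and `m` the
greatest element, `s`, `add`, `mul`, `e` are successor, addition, multiplication and the power of
two, all truncated at `m`, `l` is the least element with `e l = m`, `t = l ^ k`, and `U` holds only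
of elements which are at most `t`. -/
def Ar (k : ℕ) : FOClass where
  sig := sigA
  ax :=
    (∀' ∼(aLt.boundedFormula₂ (&0) (&0))) ⊓
    ((∀' ∀' ∀' (aLt.boundedFormula₂ (&0) (&1) ⟹ (aLt.boundedFormula₂ (&1) (&2) ⟹
      aLt.boundedFormula₂ (&0) (&2)))) ⊓
    ((∀' ∀' (aLt.boundedFormula₂ (&0) (&1) ⊔ ((&0 =' &1) ⊔ aLt.boundedFormula₂ (&1) (&0)))) ⊓
    ((∀' ∼(aLt.boundedFormula₂ (&0) (cst aZ))) ⊓
    ((∀' ∼(aLt.boundedFormula₂ (cst aM) (&0))) ⊓
    ((aS.apply₁ (cst aM) =' cst aM) ⊓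
    ((∀' (∼(&0 =' cst aM) ⟹ (aLt.boundedFormula₂ (&0) (aS.apply₁ (&0)) ⊓
      (∀' ∼(aLt.boundedFormula₂ (&0) (&1) ⊓ aLt.boundedFormula₂ (&1) (aS.apply₁ (&0))))))) ⊓
    ((∀' (aAdd.apply₂ (&0) (cst aZ) =' &0)) ⊓
    ((∀' ∀' (∼(&1 =' cst aM) ⟹
      (aAdd.apply₂ (&0) (aS.apply₁ (&1)) =' aS.apply₁ (aAdd.apply₂ (&0) (&1))))) ⊓
    ((∀' (aMul.apply₂ (&0) (cst aZ) =' cst aZ)) ⊓
    ((∀' ∀' (∼(&1 =' cst aM) ⟹
      (aMul.apply₂ (&0) (aS.apply₁ (&1)) =' aAdd.apply₂ (aMul.apply₂ (&0) (&1)) (&0)))) ⊓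
    ((aE.apply₁ (cst aZ) =' aS.apply₁ (cst aZ)) ⊓
    ((∀' (∼(&0 =' cst aM) ⟹
      (aE.apply₁ (aS.apply₁ (&0)) =' aAdd.apply₂ (aE.apply₁ (&0)) (aE.apply₁ (&0))))) ⊓
    ((aE.apply₁ (cst aL) =' cst aM) ⊓
    ((∀' (aLt.boundedFormula₂ (&0) (cst aL) ⟹ ∼(aE.apply₁ (&0) =' cst aM))) ⊓
    ((cst aT =' pwT k) ⊓
    (∀' (aU.boundedFormula₁ (&0) ⟹ ∼(aLt.boundedFormula₂ (cst aT) (&0)))))))))))))))))))

section

variable {n : ℕ} (A : Str sigA n)

def alt (x y : Fin n) : Prop := A.RelMap aLt ![x, y]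
def au (x : Fin n) : Prop := A.RelMap aU ![x]
def acst (c : sigA.lang.Functions 0) : Fin n := A.funMap c ![]
def afn (f : sigA.lang.Functions 1) (x : Fin n) : Fin n := A.funMap f ![x]
def abin (f : sigA.lang.Functions 2) (x y : Fin n) : Fin n := A.funMap f ![x, y]

/-- The interpretation of the term `l ^ k`. -/
def apw : ℕ → Fin n
  | 0 => afn A aS (acst A aZ)
  | k + 1 => abin A aMul (apw k) (acst A aL)

end

theorem realize_cst {n : ℕ} (A : Str sigA n) {α : Type} (v : α → Fin n)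
    (c : sigA.lang.Functions 0) :
    @FirstOrder.Language.Term.realize _ _ A _ v (cst c) = acst A c := by
  unfold cst acst
  rw [FirstOrder.Language.Term.realize_func]
  congr 1
  ext i
  exact Fin.elim0 i

theorem realize_pwT {n : ℕ} (A : Str sigA n) {α : Type} (v : α → Fin n) (k : ℕ) :
    @FirstOrder.Language.Term.realize _ _ A _ v (pwT k) = apw A k := by
  induction k with
  | zero =>
    unfold pwT apw afn
    rw [FirstOrder.Language.Term.realize_functions_apply₁, realize_cst]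
  | succ k ih =>
    unfold pwT apw abin
    rw [FirstOrder.Language.Term.realize_functions_apply₂, realize_cst, ih]

theorem mem_Ar {n : ℕ} (k : ℕ) (A : Str sigA n) : (Ar k).Mem A ↔
    (∀ x, ¬ alt A x x) ∧ (∀ x y z, alt A x y → alt A y z → alt A x z) ∧
    (∀ x y, alt A x y ∨ x = y ∨ alt A y x) ∧
    (∀ x, ¬ alt A x (acst A aZ)) ∧ (∀ x, ¬ alt A (acst A aM) x) ∧
    afn A aS (acst A aM) = acst A aM ∧
    (∀ x, x ≠ acst A aM → alt A x (afn A aS x) ∧ ∀ y, ¬ (alt A x y ∧ alt A y (afn A aS x))) ∧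
    (∀ x, abin A aAdd x (acst A aZ) = x) ∧
    (∀ x y, y ≠ acst A aM → abin A aAdd x (afn A aS y) = afn A aS (abin A aAdd x y)) ∧
    (∀ x, abin A aMul x (acst A aZ) = acst A aZ) ∧
    (∀ x y, y ≠ acst A aM → abin A aMul x (afn A aS y) = abin A aAdd (abin A aMul x y) x) ∧
    afn A aE (acst A aZ) = afn A aS (acst A aZ) ∧
    (∀ x, x ≠ acst A aM → afn A aE (afn A aS x) = abin A aAdd (afn A aE x) (afn A aE x)) ∧
    afn A aE (acst A aL) = acst A aM ∧
    (∀ x, alt A x (acst A aL) → afn A aE x ≠ acst A aM) ∧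
    acst A aT = apw A k ∧
    (∀ x, au A x → ¬ alt A (acst A aT) x) := by
  simp only [FOClass.Mem, Ar]
  simp only [alt, au, afn, abin]
  simp [FirstOrder.Language.Sentence.Realize, FirstOrder.Language.Formula.Realize,
    FirstOrder.Language.BoundedFormula.realize_all, Fin.snoc, realize_cst, realize_pwT,
    FirstOrder.Language.BoundedFormula.realize_rel₁,
    FirstOrder.Language.BoundedFormula.realize_rel₂,
    FirstOrder.Language.Term.realize_functions_apply₁,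
    FirstOrder.Language.Term.realize_functions_apply₂]

end Pool.Agent.H82.RA
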