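import Pool.Agent.H82.RA.Defs

set_option autoImplicit false

namespace Pool.Agent.H82.RA

open Filter

/-! ### Executing programs -/

/-- `Bd P w M c b s`: started in the configuration `c` the program `P` halts on the input `w` with
the answer `b` after exactly `s` steps, and all registers are at most `M` before each step. -/
inductive Bd (P : List Instr) (w : List ℕ) (M : ℕ) : Cfg → Bool → ℕ → Prop
  | halt (c : Cfg) (b : Bool) (h : answer P c = some b) : Bd P w M c b 0
  | step (c : Cfg) (b : Bool) (s : ℕ) (h : answer P c = none) (hM : ∀ i, c.R i ≤ M)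
      (h' : Bd P w M (next P w c) b s) : Bd P w M c b (s + 1)

theorem Bd.run {κ : CostFn} {P : List Instr} {w : List ℕ} {M : ℕ} {c : Cfg} {b : Bool} {s : ℕ}
    (h : Bd P w M c b s) (X : ℕ) (hX : ∀ c : Cfg, (∀ i, c.R i ≤ M) → κ P w c ≤ X) :
    ∃ t ≤ s * X, Run κ P w c b t := by
  induction h with
  | halt c b h => exact ⟨0, by simp, Run.halt c b h⟩
  | step c b s h hM _ ih =>
    obtain ⟨t, ht, hrun⟩ := ih
    refine ⟨κ P w c + t, ?_, Run.step c b t h hrun⟩
    have := hX c hM
    calc κ P w c + t ≤ X + s * X := Nat.add_le_add this ht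
      _ = (s + 1) * X := by ring

theorem update_le {R : ℕ → ℕ} {M i v : ℕ} (hR : ∀ x, R x ≤ M) (hv : v ≤ M) :
    ∀ x, Function.update R i v x ≤ M := by
  intro x
  rw [Function.update_apply]
  split_ifs
  · exact hv
  · exact hR x

section

variable {P : List Instr} {w : List ℕ} {M pc : ℕ} {R : ℕ → ℕ} {b : Bool} {s : ℕ}

theorem bd_const {i c : ℕ} (v : ℕ) (h : P[pc]? = some (.const i c)) (hR : ∀ x, R x ≤ M)
    (hv : c = v) (hvM : v ≤ M) (h' : (∀ x, Function.update R i v x ≤ M) →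
      Bd P w M ⟨pc + 1, Function.update R i v⟩ b s) : Bd P w M ⟨pc, R⟩ b (s + 1) := by
  subst hv
  refine Bd.step _ _ _ ?_ hR ?_
  · simp [answer, h]
  · have : next P w ⟨pc, R⟩ = ⟨pc + 1, Function.update R i c⟩ := by simp [next, h]
    rw [this]
    exact h' (update_le hR hvM)

theorem bd_add {i j k : ℕ} (v : ℕ) (h : P[pc]? = some (.add i j k)) (hR : ∀ x, R x ≤ M)
    (hv : R j + R k = v) (hvM : v ≤ M) (h' : (∀ x, Function.update R i v x ≤ M) →
      Bd P w M ⟨pc + 1, Function.update R i v⟩ b s) : Bd P w M ⟨pc, R⟩ b (s + 1) := by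
  subst hv
  refine Bd.step _ _ _ ?_ hR ?_
  · simp [answer, h]
  · have : next P w ⟨pc, R⟩ = ⟨pc + 1, Function.update R i (R j + R k)⟩ := by simp [next, h]
    rw [this]
    exact h' (update_le hR hvM)

theorem bd_sub {i j k : ℕ} (v : ℕ) (h : P[pc]? = some (.sub i j k)) (hR : ∀ x, R x ≤ M)
    (hv : R j - R k = v) (hvM : v ≤ M) (h' : (∀ x, Function.update R i v x ≤ M) →
      Bd P w M ⟨pc + 1, Function.update R i v⟩ b s) : Bd P w M ⟨pc, R⟩ b (s + 1) := by
  subst hv
  refine Bd.step _ _ _ ?_ hR ?_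
  · simp [answer, h]
  · have : next P w ⟨pc, R⟩ = ⟨pc + 1, Function.update R i (R j - R k)⟩ := by simp [next, h]
    rw [this]
    exact h' (update_le hR hvM)

theorem bd_mul {i j k : ℕ} (v : ℕ) (h : P[pc]? = some (.mul i j k)) (hR : ∀ x, R x ≤ M)
    (hv : R j * R k = v) (hvM : v ≤ M) (h' : (∀ x, Function.update R i v x ≤ M) →
      Bd P w M ⟨pc + 1, Function.update R i v⟩ b s) : Bd P w M ⟨pc, R⟩ b (s + 1) := by
  subst hv
  refine Bd.step _ _ _ ?_ hR ?_
  · simp [answer, h]
  · have : next P w ⟨pc, R⟩ = ⟨pc + 1, Function.update R i (R j * R k)⟩ := by simp [next, h]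
    rw [this]
    exact h' (update_le hR hvM)

theorem bd_read {i j : ℕ} (u v : ℕ) (h : P[pc]? = some (.read i j)) (hR : ∀ x, R x ≤ M)
    (hu : R j = u) (hv : w[u]?.getD 0 = v) (hvM : v ≤ M)
    (h' : (∀ x, Function.update R i v x ≤ M) →
      Bd P w M ⟨pc + 1, Function.update R i v⟩ b s) : Bd P w M ⟨pc, R⟩ b (s + 1) := by
  subst hu
  subst hv
  refine Bd.step _ _ _ ?_ hR ?_
  · simp [answer, h]
  · have : next P w ⟨pc, R⟩ = ⟨pc + 1, Function.update R i (w[R j]?.getD 0)⟩ := by
      simp [next, h]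
    rw [this]
    exact h' (update_le hR hvM)

theorem bd_jump {i l : ℕ} (h : P[pc]? = some (.jump i l)) (hR : ∀ x, R x ≤ M)
    (hi : R i = 0) (h' : Bd P w M ⟨l, R⟩ b s) : Bd P w M ⟨pc, R⟩ b (s + 1) := by
  refine Bd.step _ _ _ ?_ hR ?_
  · simp [answer, h]
  · have : next P w ⟨pc, R⟩ = ⟨l, R⟩ := by simp [next, h, hi]
    rw [this]
    exact h'

theorem bd_stay {i l : ℕ} (h : P[pc]? = some (.jump i l)) (hR : ∀ x, R x ≤ M)
    (hi : R i ≠ 0) (h' : Bd P w M ⟨pc + 1, R⟩ b s) : Bd P w M ⟨pc, R⟩ b (s + 1) := by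
  refine Bd.step _ _ _ ?_ hR ?_
  · simp [answer, h]
  · have : next P w ⟨pc, R⟩ = ⟨pc + 1, R⟩ := by simp [next, h, hi]
    rw [this]
    exact h'

theorem bd_halt (h : P[pc]? = some (.halt b)) : Bd P w M ⟨pc, R⟩ b 0 :=
  Bd.halt _ _ (by simp [answer, h])

end

/-- If the answer is given in time `t`, then at most `t` input cells are inspected. -/
theorem Run.inspect {κ : CostFn} (hκ : ∀ P w c, 1 ≤ κ P w c) {P : List Instr} {w : List ℕ}
    {c : Cfg} {b : Bool} {t : ℕ} (h : Run κ P w c b t) :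
    ∃ S : Finset ℕ, S.card ≤ t ∧ ∀ w' : List ℕ, w'.length = w.length →
      (∀ i ∈ S, w'[i]? = w[i]?) → ∃ t', Run κ P w' c b t' := by
  classical
  induction h with
  | halt c b h => exact ⟨∅, by simp, fun w' _ _ => ⟨0, Run.halt c b h⟩⟩
  | step c b t h _ ih =>
    obtain ⟨S, hS, hall⟩ := ih
    let j : ℕ := match P[c.pc]? with
      | some (.read _ j) => c.R j
      | _ => 0
    refine ⟨insert j S, ?_, ?_⟩
    · have h1 := Finset.card_insert_le j S
      have h2 := hκ P w c
      omega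
    · intro w' hlen hag
      have hnext : next P w' c = next P w c := by
        have hj := hag j (Finset.mem_insert_self j S)
        unfold next
        simp only [j] at hj
        split <;> simp_all
      obtain ⟨t', ht'⟩ := hall w' hlen fun i hi => hag i (Finset.mem_insert_of_mem hi)
      exact ⟨_, Run.step c b t' h (by rw [hnext]; exact ht')⟩

end Pool.Agent.H82.RA
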