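import Pool.Agent.H82.RA.Defs

set_option autoImplicit false

namespace Pool.Agent.H82.RA

/-- There are finitely many structures on an `n`-element universe. -/
theorem finite_str (s : Sig) (n : ℕ) : Finite (Str s n) := by
  let F : Str s n →
      ((i : Fin s.fn.length) → (Fin (s.fn.get i) → Fin n) → Fin n) ×
      ((i : Fin s.rel.length) → (Fin (s.rel.get i) → Fin n) → Prop) := fun A =>
    (fun i x => A.funMap (⟨i, rfl⟩ : s.lang.Functions (s.fn.get i)) x,
     fun i x => A.RelMap (⟨i, rfl⟩ : s.lang.Relations (s.rel.get i)) x)
  refine Finite.of_injective F ?_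
  intro A B h
  have h1 := congrArg Prod.fst h
  have h2 := congrArg Prod.snd h
  ext k f x
  · obtain ⟨i, rfl⟩ := f
    have := congrFun (congrFun h1 i) x
    exact congrArg Fin.val this
  · obtain ⟨i, rfl⟩ := f
    have := congrFun (congrFun h2 i) x
    exact iff_of_eq this

end Pool.Agent.H82.RA
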