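import Pool.Agent.H82.RA.Code
import Pool.Agent.H82.RA.Exec
import Pool.Agent.H82.RA.FinS

set_option autoImplicit false

namespace Pool.Agent.H82.RA

open Filter

/-! ### Running times -/

/-- The set of running times in the definition of `maxTime` is finite, hence bounded. -/
theorem bddAbove_times (M : Model) (L : FOClass) (γ : M.Alg) (n : ℕ) :
    BddAbove {t | ∃ A B : Str L.sig n, L.Mem A ∧ L.Mem B ∧ ∃ b, M.Halts γ (pairCode A B) b t} := by
  have := finite_str L.sig n
  have hfin : Set.Finite {t | ∃ A B : Str L.sig n, L.Mem A ∧ L.Mem B ∧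
      ∃ b, M.Halts γ (pairCode A B) b t} := by
    have hsub : {t | ∃ A B : Str L.sig n, L.Mem A ∧ L.Mem B ∧
        ∃ b, M.Halts γ (pairCode A B) b t} ⊆
        ⋃ A : Str L.sig n, ⋃ B : Str L.sig n, {t | ∃ b, M.Halts γ (pairCode A B) b t} := by
      rintro t ⟨A, B, -, -, hb⟩
      exact Set.mem_iUnion.2 ⟨A, Set.mem_iUnion.2 ⟨B, hb⟩⟩
    refine Set.Finite.subset ?_ hsub
    refine Set.finite_iUnion fun A => Set.finite_iUnion fun B => ?_
    refine Set.Subsingleton.finite ?_
    rintro t ⟨b, h⟩ t' ⟨b', h'⟩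
    exact (M.det _ _ _ _ _ _ h h').2
  exact hfin.bddAbove

/-- `maxTime` bounds the time used on each pair of `n`-element members. -/
theorem le_maxTime (M : Model) (L : FOClass) (γ : M.Alg) (n : ℕ) (A B : Str L.sig n)
    (hA : L.Mem A) (hB : L.Mem B) (b : Bool) (t : ℕ) (h : M.Halts γ (pairCode A B) b t) :
    t ≤ maxTime M L γ n :=
  le_csSup (bddAbove_times M L γ n) ⟨A, B, hA, hB, b, h⟩

/-- Every test for `J` needs time at least `n - 1`. -/
theorem J_lower {κ : CostFn} (hκ : ∀ P w c, 1 ≤ κ P w c) (β : (ram κ).Alg)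
    (hβ : IsTest (ram κ) J β) (n : ℕ) : n ≤ maxTime (ram κ) J β n + 1 := by
  classical
  by_contra hcon
  push Not at hcon
  have hn : 0 < n := by omega
  let z : Fin n := ⟨0, hn⟩
  let E : Str sigJ n := mkP fun x => x = z
  have hE : J.Mem E := (mem_J _).2 ⟨z, (pred_mkP _ _).2 rfl⟩
  obtain ⟨b, t, hbt, hb⟩ := hβ n E E hE hE
  have hbtrue : b = true := hb.2 (Iso.refl E)
  subst hbtrue
  have ht : t ≤ maxTime (ram κ) J β n := le_maxTime _ J β n E E hE hE _ _ hbt
  obtain ⟨S, hS, hag⟩ := Run.inspect hκ hbt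
  have hk : ∃ k : Fin n, k ≠ z ∧ k.val + 1 ∉ S := by
    by_contra hall
    push Not at hall
    have hcard : ((Finset.univ.erase z).map ⟨fun k : Fin n => (k : ℕ) + 1, fun a b h => by
        simp only at h
        exact Fin.ext (by omega)⟩) ⊆ S := by
      intro x hx
      simp only [Finset.mem_map, Finset.mem_erase, Finset.mem_univ, and_true] at hx
      obtain ⟨k, hk, rfl⟩ := hx
      exact hall k hk
    have := Finset.card_le_card hcard
    rw [Finset.card_map, Finset.card_erase_of_mem (Finset.mem_univ _), Finset.card_univ,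
      Fintype.card_fin] at this
    omega
  obtain ⟨k, hkz, hkS⟩ := hk
  let A : Str sigJ n := mkP fun x => x = z ∨ x = k
  have hA : J.Mem A := (mem_J _).2 ⟨z, (pred_mkP _ _).2 (Or.inl rfl)⟩
  have hlen : (pairCode A E).length = (pairCode E E).length := by
    unfold pairCode
    rw [List.length_append, List.length_append, length_code_J, length_code_J]
  have hcode : ∀ i ∈ S, (pairCode A E)[i]? = (pairCode E E)[i]? := by
    intro i hi
    have hik : i ≠ k.val + 1 := fun h => hkS (h ▸ hi)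
    unfold pairCode
    rw [List.getElem?_append, List.getElem?_append, length_code_J, length_code_J]
    split_ifs with h1
    · rw [code_J, code_J]
      cases i with
      | zero => rfl
      | succ i =>
        rw [List.getElem?_cons_succ, List.getElem?_cons_succ, List.getElem?_ofFn,
          List.getElem?_ofFn, dif_pos (by omega), dif_pos (by omega)]
        have hne : (⟨i, by omega⟩ : Fin n) ≠ k := by
          intro h
          apply hik
          rw [← h]
        simp only [A, E, pred_mkP, hne, or_false]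
    · rfl
  obtain ⟨t', ht'⟩ := hag (pairCode A E) hlen hcode
  obtain ⟨b'', t'', hbt'', hb''⟩ := hβ n A E hA hE
  have hbb := ((ram κ).det _ _ _ _ _ _ ht' hbt'').1
  have hiso : Iso A E := hb''.1 hbb.symm
  obtain ⟨e, he⟩ := (isoJ_iff A E).1 hiso
  have h1 : e z = z := (pred_mkP (fun x => x = z) _).1 ((he z).2 ((pred_mkP _ _).2 (Or.inl rfl)))
  have h2 : e k = z := (pred_mkP (fun x => x = z) _).1 ((he k).2 ((pred_mkP _ _).2 (Or.inr rfl)))
  exact hkz (e.injective (h2.trans h1.symm))

/-- The upper bound for the running time of a program which takes few steps. -/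
theorem maxTime_le {κ : CostFn} (L : FOClass) (P : List Instr) (n s M D : ℕ) (hM2 : 2 ≤ M)
    (hD : ∀ w c M, 2 ≤ M → w.length ≤ M → (∀ x ∈ w, x ≤ M) → (∀ i, c.R i ≤ M) →
      κ P w c ≤ D * Nat.log 2 M ^ D)
    (h : ∀ A B : Str L.sig n, L.Mem A → L.Mem B → (pairCode A B).length ≤ M ∧
      (∀ x ∈ pairCode A B, x ≤ M) ∧ ∃ b, ∃ s' ≤ s, Bd P (pairCode A B) M ⟨0, fun _ => 0⟩ b s') :
    maxTime (ram κ) L P n ≤ s * (D * Nat.log 2 M ^ D) := by
  refine csSup_le' ?_
  rintro t ⟨A, B, hA, hB, b, hbt⟩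
  obtain ⟨h1, h2, b', s', hs', hBd⟩ := h A B hA hB
  obtain ⟨t', ht', hrun⟩ := hBd.run (κ := κ) (D * Nat.log 2 M ^ D)
    (fun c hc => hD _ c M hM2 h1 h2 hc)
  have := ((ram κ).det _ _ _ _ _ _ hrun hbt).2
  rw [← this]
  exact ht'.trans (Nat.mul_le_mul_right _ hs')

end Pool.Agent.H82.RA
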