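import Pool.Agent.H82.RA.ArStd
import Pool.Agent.H82.RA.Time

set_option autoImplicit false

namespace Pool.Agent.H82.RA

open Classical in
theorem code_A {n : ℕ} (A : Str sigA n) : ∃ T T' : List ℕ, T.length = n * n ∧
    T'.length = n + n * n + n * n ∧
    code A = n :: (T ++ (List.ofFn (fun x : Fin n => if au A x then 1 else 0) ++
      ((acst A aZ).val + 1) :: ((acst A aT).val + 1) :: ((acst A aL).val + 1) ::
      ((acst A aM).val + 1) :: (List.ofFn (fun x : Fin n => (afn A aS x).val + 1) ++ T'))) := by
  have h1 : List.ofFn (relTable A) = [relTable A (0 : Fin 2), relTable A (1 : Fin 2)] := by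
    refine (List.ofFn_succ (n := 1)).trans ?_
    congr 1
  have h2 : List.ofFn (fnTable A) = [fnTable A (0 : Fin 8), fnTable A (1 : Fin 8),
      fnTable A (2 : Fin 8), fnTable A (3 : Fin 8), fnTable A (4 : Fin 8), fnTable A (5 : Fin 8),
      fnTable A (6 : Fin 8), fnTable A (7 : Fin 8)] := by
    show List.ofFn (fun i : Fin 8 => fnTable A i) = _
    simp only [List.ofFn_succ, List.ofFn_zero]
    rfl
  refine ⟨relTable A (0 : Fin 2), fnTable A (5 : Fin 8) ++ fnTable A (6 : Fin 8) ++
    fnTable A (7 : Fin 8), ?_, ?_, ?_⟩
  · unfold relTable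
    rw [List.length_ofFn]
    exact sq n
  · rw [List.length_append, List.length_append]
    unfold fnTable
    rw [List.length_ofFn, List.length_ofFn, List.length_ofFn]
    show n ^ 1 + n ^ 2 + n ^ 2 = _
    ring
  · unfold code
    rw [h1, h2]
    simp only [List.flatten_cons, List.flatten_nil, List.append_nil]
    have e1 : relTable A (1 : Fin 2) = List.ofFn (fun x : Fin n => if au A x then 1 else 0) :=
      ofFn_one (fun x => if A.RelMap aU x then 1 else 0)
    have c0 : fnTable A (0 : Fin 8) = [(acst A aZ).val + 1] :=
      ofFn_zero (fun x => (A.funMap aZ x).val + 1)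
    have c1 : fnTable A (1 : Fin 8) = [(acst A aT).val + 1] :=
      ofFn_zero (fun x => (A.funMap aT x).val + 1)
    have c2 : fnTable A (2 : Fin 8) = [(acst A aL).val + 1] :=
      ofFn_zero (fun x => (A.funMap aL x).val + 1)
    have c3 : fnTable A (3 : Fin 8) = [(acst A aM).val + 1] :=
      ofFn_zero (fun x => (A.funMap aM x).val + 1)
    have c4 : fnTable A (4 : Fin 8) = List.ofFn (fun x : Fin n => (afn A aS x).val + 1) :=
      ofFn_one (fun x => (A.funMap aS x).val + 1)
    rw [e1, c0, c1, c2, c3, c4]
    simp only [List.append_assoc, List.cons_append, List.nil_append]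

theorem length_code_A {n : ℕ} (A : Str sigA n) :
    (code A).length = 3 * (n * n) + 3 * n + 5 := by
  obtain ⟨T, T', hT, hT', h⟩ := code_A A
  rw [h]
  simp only [List.length_append, List.length_cons, List.length_ofFn, hT, hT']
  ring

open Classical in
theorem look_A {n : ℕ} (A : Str sigA n) (l : List ℕ) :
    (code A ++ l)[0]?.getD 0 = n ∧
    (∀ x : Fin n, (code A ++ l)[n * n + (x.val + 1)]?.getD 0 = if au A x then 1 else 0) ∧
    (code A ++ l)[n * n + n + 1]?.getD 0 = (acst A aZ).val + 1 ∧
    (code A ++ l)[n * n + n + 2]?.getD 0 = (acst A aT).val + 1 ∧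
    (∀ x : Fin n, (code A ++ l)[n * n + n + 4 + (x.val + 1)]?.getD 0 =
      (afn A aS x).val + 1) := by
  obtain ⟨T, T', hT, hT', h⟩ := code_A A
  rw [h]
  refine ⟨rfl, ?_, ?_, ?_, ?_⟩
  · intro x
    rw [List.cons_append, ← add_assoc (n * n) x.val 1, List.getElem?_cons_succ, List.append_assoc,
      List.getElem?_append_right (by omega), hT, Nat.add_sub_cancel_left, List.append_assoc,
      List.getElem?_append_left (by simp), List.getElem?_ofFn, dif_pos x.isLt]
    rfl
  · rw [List.cons_append, List.getElem?_cons_succ, List.append_assoc,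
      List.getElem?_append_right (by omega), hT, Nat.add_sub_cancel_left, List.append_assoc,
      List.getElem?_append_right (by simp)]
    simp
  · rw [List.cons_append, show n * n + n + 2 = n * n + n + 1 + 1 by ring,
      List.getElem?_cons_succ, List.append_assoc,
      List.getElem?_append_right (by omega), hT,
      show n * n + n + 1 - n * n = n + 1 by omega, List.append_assoc,
      List.getElem?_append_right (by simp), List.length_ofFn, Nat.add_sub_cancel_left]
    simp
  · intro x
    rw [List.cons_append, ← add_assoc (n * n + n + 4) x.val 1, List.getElem?_cons_succ,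
      List.append_assoc, List.getElem?_append_right (by omega), hT,
      show n * n + n + 4 + x.val - n * n = n + (x.val + 4) by omega, List.append_assoc,
      List.getElem?_append_right (by simp), List.length_ofFn, Nat.add_sub_cancel_left,
      List.cons_append, List.cons_append, List.cons_append, List.cons_append,
      show x.val + 4 = x.val + 1 + 1 + 1 + 1 by ring, List.getElem?_cons_succ,
      List.getElem?_cons_succ, List.getElem?_cons_succ, List.getElem?_cons_succ,
      List.append_assoc, List.getElem?_append_left (by simp),
      List.getElem?_ofFn, dif_pos x.isLt]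
    rfl

theorem length_pairCode_A {n : ℕ} (A B : Str sigA n) :
    (pairCode A B).length = 6 * (n * n) + 6 * n + 10 := by
  unfold pairCode
  rw [List.length_append, length_code_A, length_code_A]
  ring

end Pool.Agent.H82.RA
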