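import Pool.Agent.H82.RA.ArRank

set_option autoImplicit false

namespace Pool.Agent.H82.RA

theorem ar_cases0 (c : sigA.lang.Functions 0) : c = aZ ∨ c = aT ∨ c = aL ∨ c = aM := by
  obtain ⟨⟨i, hi⟩, h⟩ := c
  have hi' : i < 8 := hi
  interval_cases i
  · exact Or.inl rfl
  · exact Or.inr (Or.inl rfl)
  · exact Or.inr (Or.inr (Or.inl rfl))
  · exact Or.inr (Or.inr (Or.inr rfl))
  all_goals exact absurd h (by simp [sigA])

theorem ar_cases1 (c : sigA.lang.Functions 1) : c = aS ∨ c = aE := by
  obtain ⟨⟨i, hi⟩, h⟩ := c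
  have hi' : i < 8 := hi
  interval_cases i
  all_goals first
    | exact Or.inl rfl
    | exact Or.inr rfl
    | exact absurd h (by simp [sigA])

theorem ar_cases2 (c : sigA.lang.Functions 2) : c = aAdd ∨ c = aMul := by
  obtain ⟨⟨i, hi⟩, h⟩ := c
  have hi' : i < 8 := hi
  interval_cases i
  all_goals first
    | exact Or.inl rfl
    | exact Or.inr rfl
    | exact absurd h (by simp [sigA])

theorem ar_arity (k : ℕ) (f : sigA.lang.Functions k) : k = 0 ∨ k = 1 ∨ k = 2 := by
  obtain ⟨⟨i, hi⟩, h⟩ := f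
  have hi' : i < 8 := hi
  interval_cases i
  all_goals (simp [sigA] at h; omega)

theorem ar_rel (k : ℕ) (f : sigA.lang.Relations k) : (k = 2 ∧ HEq f aLt) ∨ (k = 1 ∧ HEq f aU) := by
  obtain ⟨⟨i, hi⟩, h⟩ := f
  have hi' : i < 2 := hi
  interval_cases i
  · have hk : k = 2 := h.symm
    subst hk
    exact Or.inl ⟨rfl, HEq.rfl⟩
  · have hk : k = 1 := h.symm
    subst hk
    exact Or.inr ⟨rfl, HEq.rfl⟩

theorem isoA_iff {n : ℕ} (A B : Str sigA n) :
    Iso A B ↔ ∃ e : Fin n ≃ Fin n, (∀ x y, alt B (e x) (e y) ↔ alt A x y) ∧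
      (∀ x, au B (e x) ↔ au A x) ∧ (∀ c, acst B c = e (acst A c)) ∧
      (∀ f x, afn B f (e x) = e (afn A f x)) ∧
      ∀ f x y, abin B f (e x) (e y) = e (abin A f x y) := by
  constructor
  · rintro ⟨e⟩
    refine ⟨@FirstOrder.Language.Equiv.toEquiv _ _ _ A B e, fun x y => ?_, fun x => ?_,
      fun c => ?_, fun f x => ?_, fun f x y => ?_⟩
    · have := @FirstOrder.Language.Equiv.map_rel' _ _ _ A B e _ aLt ![x, y]
      unfold alt
      rw [← this]
      apply iff_of_eq
      congr 1
      ext i
      fin_cases i <;> rfl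
    · have := @FirstOrder.Language.Equiv.map_rel' _ _ _ A B e _ aU ![x]
      unfold au
      rw [← this]
      apply iff_of_eq
      congr 1
      ext i
      fin_cases i
      rfl
    · have := @FirstOrder.Language.Equiv.map_fun' _ _ _ A B e _ c ![]
      unfold acst
      refine Eq.trans ?_ this.symm
      congr 1
      ext i
      exact Fin.elim0 i
    · have := @FirstOrder.Language.Equiv.map_fun' _ _ _ A B e _ f ![x]
      unfold afn
      refine Eq.trans ?_ this.symm
      congr 1
      ext i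
      fin_cases i
      rfl
    · have := @FirstOrder.Language.Equiv.map_fun' _ _ _ A B e _ f ![x, y]
      unfold abin
      refine Eq.trans ?_ this.symm
      congr 1
      ext i
      fin_cases i <;> rfl
  · rintro ⟨e, h1, h2, h3, h4, h5⟩
    refine ⟨@FirstOrder.Language.Equiv.mk _ _ _ A B e ?_ ?_⟩
    · intro k f x
      rcases ar_arity k f with rfl | rfl | rfl
      · have hx1 : x = ![] := by ext i; exact Fin.elim0 i
        have hx2 : (e.toFun ∘ x) = ![] := by ext i; exact Fin.elim0 i
        rw [hx2, hx1]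
        exact (h3 f).symm
      · have hx1 : x = ![x 0] := by
          ext i; fin_cases i; rfl
        have hx2 : (e.toFun ∘ x) = ![e (x 0)] := by
          ext i; fin_cases i; rfl
        rw [hx2, hx1]
        exact (h4 f (x 0)).symm
      · have hx1 : x = ![x 0, x 1] := by
          ext i; fin_cases i <;> rfl
        have hx2 : (e.toFun ∘ x) = ![e (x 0), e (x 1)] := by
          ext i; fin_cases i <;> rfl
        rw [hx2, hx1]
        exact (h5 f (x 0) (x 1)).symm
    · intro k r x
      rcases ar_rel k r with ⟨rfl, hr⟩ | ⟨rfl, hr⟩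
      · have hr' : r = aLt := eq_of_heq hr
        subst hr'
        have hx1 : x = ![x 0, x 1] := by
          ext i; fin_cases i <;> rfl
        have hx2 : (e.toFun ∘ x) = ![e (x 0), e (x 1)] := by
          ext i; fin_cases i <;> rfl
        rw [hx2, hx1]
        exact h1 (x 0) (x 1)
      · have hr' : r = aU := eq_of_heq hr
        subst hr'
        have hx1 : x = ![x 0] := by
          ext i; fin_cases i; rfl
        have hx2 : (e.toFun ∘ x) = ![e (x 0)] := by
          ext i; fin_cases i; rfl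
        rw [hx2, hx1]
        exact h2 (x 0)

/-- Members of `Ar k` are isomorphic iff `U` holds at the same places. -/
theorem isoA_iff_u {n k : ℕ} {A B : Str sigA n} (hA : (Ar k).Mem A) (hB : (Ar k).Mem B) :
    Iso A B ↔ ∀ x y, rk (alt A) x = rk (alt B) y → (au A x ↔ au B y) := by
  rw [isoA_iff]
  constructor
  · rintro ⟨e, h1, h2, _⟩ x y hxy
    have h3 := rk_iso (alt A) (alt B) e h1 x
    have h4 : y = e x := (ar_lin hB).rk_inj (by rw [h3, hxy])
    rw [h4]
    exact (h2 x).symm
  · intro h
    obtain ⟨e, he⟩ := (ar_lin hA).exists_iso (ar_lin hB)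
    refine ⟨e, ?_, ?_, ?_, ?_, ?_⟩
    · intro x y
      rw [← (ar_lin hA).rk_lt_iff, ← (ar_lin hB).rk_lt_iff, he, he]
    · intro x
      exact (h x (e x) (he x).symm).symm
    · intro c
      refine (ar_lin hB).rk_inj ?_
      rw [he]
      rcases ar_cases0 c with rfl | rfl | rfl | rfl
      · rw [ar_z hA, ar_z hB]
      · rw [ar_t hA, ar_t hB]
      · rw [ar_l hA, ar_l hB]
      · rw [ar_m hA, ar_m hB]
    · intro f x
      refine (ar_lin hB).rk_inj ?_
      rw [he]
      rcases ar_cases1 f with rfl | rfl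
      · rw [ar_s hA, ar_s hB, he]
      · rw [ar_e hA _ _ rfl, ar_e hB _ _ rfl, he]
    · intro f x y
      refine (ar_lin hB).rk_inj ?_
      rw [he]
      rcases ar_cases2 f with rfl | rfl
      · rw [ar_add hA _ _ _ rfl, ar_add hB _ _ _ rfl, he, he]
      · rw [ar_mul hA _ _ _ rfl, ar_mul hB _ _ _ rfl, he, he]

end Pool.Agent.H82.RA
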