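import Pool.Agent.H82.RA.ArCode
import Pool.Agent.H82.RA.Exec

set_option autoImplicit false

namespace Pool.Agent.H82.RA

/-- A program comparing the values of `U` from `z` up to `t`. -/
def aProg : List Instr :=
  [.read 1 0, .mul 3 1 1, .const 2 1, .add 4 3 1, .add 4 4 2, .add 14 4 2, .const 15 3,
   .add 5 4 15, .add 6 4 1, .add 6 6 1, .add 6 6 3, .add 6 6 3, .const 16 4, .add 6 6 16,
   .add 7 6 3, .add 17 6 4, .add 18 6 5, .read 8 4, .read 9 17, .read 19 14,
   .add 10 3 8, .read 10 10, .add 11 7 9, .read 11 11, .sub 12 10 11, .sub 13 11 10,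
   .add 12 12 13, .jump 12 29, .halt false,
   .sub 12 19 8, .sub 13 8 19, .add 12 12 13, .jump 12 38,
   .add 10 5 8, .read 8 10, .add 11 18 9, .read 9 11, .jump 0 20, .halt true]

/-- The values of the registers at the head of the loop of `aProg`. -/
structure AInv (n l M a b t : ℕ) (R : ℕ → ℕ) : Prop where
  le : ∀ x, R x ≤ M
  h0 : R 0 = 0
  h3 : R 3 = n * n
  h5 : R 5 = n * n + n + 4
  h7 : R 7 = l + n * n
  h18 : R 18 = l + (n * n + n + 4)
  h8 : R 8 = a
  h9 : R 9 = b
  h19 : R 19 = t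

theorem aProg_loop {w : List ℕ} {n l M a b t ua ub sa sb : ℕ} {R : ℕ → ℕ}
    (hR : AInv n l M a b t R) (han : a ≤ n) (hbn : b ≤ n) (htn : t ≤ n)
    (hua1 : ua ≤ 1) (hub1 : ub ≤ 1) (hsa1 : sa ≤ n) (hsb1 : sb ≤ n)
    (hM : l + n * n + 2 * n + 4 ≤ M)
    (hua : w[n * n + a]?.getD 0 = ua)
    (hub : w[l + n * n + b]?.getD 0 = ub)
    (hsa : w[n * n + n + 4 + a]?.getD 0 = sa)
    (hsb : w[l + (n * n + n + 4) + b]?.getD 0 = sb) :
    (ua ≠ ub → Bd aProg w M ⟨20, R⟩ false 8) ∧
    (ua = ub → a = t → Bd aProg w M ⟨20, R⟩ true 12) ∧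
    (ua = ub → a ≠ t → ∀ r s, (∀ R', AInv n l M sa sb t R' →
      Bd aProg w M ⟨20, R'⟩ r s) → Bd aProg w M ⟨20, R⟩ r (s + 17)) := by
  obtain ⟨hle, h0, h3, h5, h7, h18, h8, h9, h19⟩ := hR
  have first : ∀ (r : Bool) (s : ℕ), (∀ R' : ℕ → ℕ, (∀ x, R' x ≤ M) → R' 0 = 0 → R' 3 = n * n →
      R' 5 = n * n + n + 4 → R' 7 = l + n * n → R' 18 = l + (n * n + n + 4) →
      R' 8 = a → R' 9 = b → R' 19 = t →
      R' 12 = (ua - ub) + (ub - ua) → Bd aProg w M ⟨27, R'⟩ r s) →
      Bd aProg w M ⟨20, R⟩ r (s + 7) := by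
    intro r s hnext
    refine bd_add (n * n + a) rfl hle (by rw [h3, h8]) (by omega) fun hle => ?_
    refine bd_read (n * n + a) ua rfl hle (by simp) hua (by omega) fun hle => ?_
    refine bd_add (l + n * n + b) rfl hle (by simp [h7, h9]) (by omega) fun hle => ?_
    refine bd_read (l + n * n + b) ub rfl hle (by simp) hub (by omega) fun hle => ?_
    refine bd_sub (ua - ub) rfl hle (by simp) (by omega) fun hle => ?_
    refine bd_sub (ub - ua) rfl hle (by simp) (by omega) fun hle => ?_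
    refine bd_add ((ua - ub) + (ub - ua)) rfl hle (by simp) (by omega) fun hle => ?_
    refine hnext _ hle ?_ ?_ ?_ ?_ ?_ ?_ ?_ ?_ ?_ <;> simp [*]
  have second : ∀ (r : Bool) (s : ℕ) (R : ℕ → ℕ), (∀ x, R x ≤ M) → R 0 = 0 → R 3 = n * n →
      R 5 = n * n + n + 4 → R 7 = l + n * n → R 18 = l + (n * n + n + 4) →
      R 8 = a → R 9 = b → R 19 = t →
      (∀ R' : ℕ → ℕ, (∀ x, R' x ≤ M) → R' 0 = 0 → R' 3 = n * n →
      R' 5 = n * n + n + 4 → R' 7 = l + n * n → R' 18 = l + (n * n + n + 4) →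
      R' 8 = a → R' 9 = b → R' 19 = t →
      R' 12 = (t - a) + (a - t) → Bd aProg w M ⟨32, R'⟩ r s) →
      Bd aProg w M ⟨29, R⟩ r (s + 3) := by
    intro r s R hle h0 h3 h5 h7 h18 h8 h9 h19 hnext
    refine bd_sub (t - a) rfl hle (by rw [h19, h8]) (by omega) fun hle => ?_
    refine bd_sub (a - t) rfl hle (by simp [h8, h19]) (by omega) fun hle => ?_
    refine bd_add ((t - a) + (a - t)) rfl hle (by simp) (by omega) fun hle => ?_
    refine hnext _ hle ?_ ?_ ?_ ?_ ?_ ?_ ?_ ?_ ?_ <;> simp [*]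
  refine ⟨fun hne => ?_, fun heq hat => ?_, fun heq hne r s hnext => ?_⟩
  · refine first false 1 fun R' hle' _ _ _ _ _ _ _ _ h12 => ?_
    exact bd_stay rfl hle' (by rw [h12]; omega) (bd_halt rfl)
  · refine first true 5 fun R' hle' h0 h3 h5 h7 h18 h8 h9 h19 h12 => ?_
    refine bd_jump rfl hle' (by rw [h12]; omega) ?_
    refine second true 1 R' hle' h0 h3 h5 h7 h18 h8 h9 h19 ?_
    intro R' hle' _ _ _ _ _ _ _ _ h12
    exact bd_jump rfl hle' (by rw [h12]; omega) (bd_halt rfl)
  · refine first r (s + 10) fun R' hle' h0 h3 h5 h7 h18 h8 h9 h19 h12 => ?_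
    refine bd_jump rfl hle' (by rw [h12]; omega) ?_
    refine second r (s + 6) R' hle' h0 h3 h5 h7 h18 h8 h9 h19 ?_
    intro R' hle h0 h3 h5 h7 h18 h8 h9 h19 h12
    refine bd_stay rfl hle (by rw [h12]; omega) ?_
    refine bd_add (n * n + n + 4 + a) rfl hle (by rw [h5, h8]) (by omega) fun hle => ?_
    refine bd_read (n * n + n + 4 + a) sa rfl hle (by simp) hsa (by omega) fun hle => ?_
    refine bd_add (l + (n * n + n + 4) + b) rfl hle (by simp [h18, h9]) (by omega)
      fun hle => ?_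
    refine bd_read (l + (n * n + n + 4) + b) sb rfl hle (by simp) hsb (by omega) fun hle => ?_
    refine bd_jump rfl hle (by simp [h0]) ?_
    refine hnext _ ⟨hle, ?_, ?_, ?_, ?_, ?_, ?_, ?_, ?_⟩ <;> simp [*]

/-- The start of the program. -/
theorem aProg_start {w : List ℕ} {n l M a b t : ℕ} {r : Bool} {s : ℕ}
    (hl : l = 3 * (n * n) + 3 * n + 5) (hM : l + n * n + 2 * n + 4 ≤ M)
    (han : a ≤ n) (hbn : b ≤ n) (htn : t ≤ n) (w0 : w[0]?.getD 0 = n)
    (wa : w[n * n + n + 1]?.getD 0 = a) (wb : w[l + (n * n + n + 1)]?.getD 0 = b)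
    (wt : w[n * n + n + 2]?.getD 0 = t)
    (hall : ∀ R, AInv n l M a b t R → Bd aProg w M ⟨20, R⟩ r s) :
    Bd aProg w M ⟨0, fun _ => 0⟩ r (s + 20) := by
  have hle : ∀ x, (fun _ => 0 : ℕ → ℕ) x ≤ M := fun _ => Nat.zero_le _
  refine bd_read 0 n rfl hle rfl w0 (by omega) fun hle => ?_
  refine bd_mul (n * n) rfl hle (by simp) (by omega) fun hle => ?_
  refine bd_const 1 rfl hle rfl (by omega) fun hle => ?_
  refine bd_add (n * n + n) rfl hle (by simp) (by omega) fun hle => ?_
  refine bd_add (n * n + n + 1) rfl hle (by simp) (by omega) fun hle => ?_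
  refine bd_add (n * n + n + 2) rfl hle (by simp) (by omega) fun hle => ?_
  refine bd_const 3 rfl hle rfl (by omega) fun hle => ?_
  refine bd_add (n * n + n + 4) rfl hle (by simp) (by omega) fun hle => ?_
  refine bd_add (n * n + n + 1 + n) rfl hle (by simp) (by omega) fun hle => ?_
  refine bd_add (n * n + n + 1 + n + n) rfl hle (by simp) (by omega) fun hle => ?_
  refine bd_add (n * n + n + 1 + n + n + n * n) rfl hle (by simp) (by omega) fun hle => ?_
  refine bd_add (n * n + n + 1 + n + n + n * n + n * n) rfl hle (by simp) (by omega)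
    fun hle => ?_
  refine bd_const 4 rfl hle rfl (by omega) fun hle => ?_
  refine bd_add l rfl hle (by simp [hl]; ring) (by omega) fun hle => ?_
  refine bd_add (l + n * n) rfl hle (by simp) (by omega) fun hle => ?_
  refine bd_add (l + (n * n + n + 1)) rfl hle (by simp) (by omega) fun hle => ?_
  refine bd_add (l + (n * n + n + 4)) rfl hle (by simp) (by omega) fun hle => ?_
  refine bd_read (n * n + n + 1) a rfl hle (by simp) wa (by omega) fun hle => ?_
  refine bd_read (l + (n * n + n + 1)) b rfl hle (by simp) wb (by omega) fun hle => ?_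
  refine bd_read (n * n + n + 2) t rfl hle (by simp) wt (by omega) fun hle => ?_
  refine hall _ ⟨hle, ?_, ?_, ?_, ?_, ?_, ?_, ?_, ?_⟩ <;> simp

section

variable {n k : ℕ} {A B : Str sigA n}

/-- `U` agrees in `A` and `B` at the numbers from `i` up to `t`. -/
def Agree (k : ℕ) (A B : Str sigA n) (i : ℕ) : Prop :=
  ∀ x y, i ≤ rk (alt A) x → rk (alt A) x ≤ tnum k n → rk (alt A) x = rk (alt B) y →
    (au A x ↔ au B y)

theorem aProg_steps (hA : (Ar k).Mem A) (hB : (Ar k).Mem B) (d : ℕ) :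
    ∀ x y, rk (alt A) x = rk (alt B) y → rk (alt A) x + d = tnum k n →
    ∃ b : Bool, ∃ s ≤ 17 * d + 12, (b = true ↔ Agree k A B (rk (alt A) x)) ∧
      ∀ R, AInv n (3 * (n * n) + 3 * n + 5) (6 * (n * n) + 6 * n + 10) (x.val + 1) (y.val + 1)
        ((acst A aT).val + 1) R →
        Bd aProg (pairCode A B) (6 * (n * n) + 6 * n + 10) ⟨20, R⟩ b s := by
  classical
  obtain ⟨a1, a2, a3, a4, a5⟩ := look_A A (code B)
  obtain ⟨b1, b2, b3, b4, b5⟩ := look_A B []
  have hub : ∀ y : Fin n, (pairCode A B)[3 * (n * n) + 3 * n + 5 + n * n + (y.val + 1)]?.getD 0 =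
      if au B y then 1 else 0 := by
    intro y
    rw [add_assoc (3 * (n * n) + 3 * n + 5)]
    exact (look_right _ _ _ _ (length_code_A A)).trans (b2 y)
  have hsb : ∀ y : Fin n, (pairCode A B)[3 * (n * n) + 3 * n + 5 + (n * n + n + 4) +
      (y.val + 1)]?.getD 0 = (afn B aS y).val + 1 := by
    intro y
    rw [add_assoc (3 * (n * n) + 3 * n + 5)]
    exact (look_right _ _ _ _ (length_code_A A)).trans (b5 y)
  have hle1 : ∀ p : Prop, (if p then 1 else 0 : ℕ) ≤ 1 := by
    intro p
    split_ifs <;> omega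
  have hite : ∀ p q : Prop, ((if p then 1 else 0 : ℕ) = (if q then 1 else 0 : ℕ)) ↔
      (p ↔ q) := by
    intro p q
    by_cases hp : p <;> by_cases hq : q <;> simp [hp, hq]
  induction d with
  | zero =>
    intro x y hxy hd
    have key := fun R (hR : AInv n (3 * (n * n) + 3 * n + 5) (6 * (n * n) + 6 * n + 10)
        (x.val + 1) (y.val + 1) ((acst A aT).val + 1) R) =>
      aProg_loop hR (by omega) (by omega) (by omega) (hle1 _) (hle1 _) (by omega) (by omega)
        (by nlinarith) (a2 x) (hub y) (a5 x) (hsb y)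
    by_cases hu : au A x ↔ au B y
    · refine ⟨true, 12, by omega, ?_, fun R hR => ?_⟩
      · refine ⟨fun _ => ?_, fun _ => rfl⟩
        intro x' y' h1 h2 h3
        have hx : x' = x := (ar_lin hA).rk_inj (by omega)
        have hy : y' = y := (ar_lin hB).rk_inj (by omega)
        rw [hx, hy]
        exact hu
      · have hxt : x = acst A aT := (ar_lin hA).rk_inj (by rw [ar_t hA]; omega)
        exact (key R hR).2.1 ((hite _ _).2 hu) (by rw [hxt])
    · refine ⟨false, 8, by omega, ?_, fun R hR => ?_⟩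
      · refine ⟨fun h => absurd h (by simp), fun h => ?_⟩
        exact absurd (h x y le_rfl (by omega) hxy) hu
      · exact (key R hR).1 (fun h => hu ((hite _ _).1 h))
  | succ d ih =>
    intro x y hxy hd
    have key := fun R (hR : AInv n (3 * (n * n) + 3 * n + 5) (6 * (n * n) + 6 * n + 10)
        (x.val + 1) (y.val + 1) ((acst A aT).val + 1) R) =>
      aProg_loop hR (by omega) (by omega) (by omega) (hle1 _) (hle1 _) (by omega) (by omega)
        (by nlinarith) (a2 x) (hub y) (a5 x) (hsb y)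
    have htn : tnum k n ≤ n - 1 := by
      unfold tnum
      omega
    by_cases hu : au A x ↔ au B y
    · have hsx := ar_s hA x
      have hsy := ar_s hB y
      obtain ⟨b, s, hs, hb, hall⟩ := ih (afn A aS x) (afn B aS y) (by omega) (by omega)
      refine ⟨b, s + 17, by omega, ?_, fun R hR => ?_⟩
      · rw [hb]
        constructor
        · intro h x' y' h1 h2 h3
          rcases Nat.eq_or_lt_of_le h1 with h4 | h4
          · have hx : x' = x := (ar_lin hA).rk_inj (by omega)
            have hy : y' = y := (ar_lin hB).rk_inj (by omega)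
            rw [hx, hy]
            exact hu
          · exact h x' y' (by omega) h2 h3
        · intro h x' y' h1 h2 h3
          exact h x' y' (by omega) h2 h3
      · refine (key R hR).2.2 ((hite _ _).2 hu) ?_ _ _ hall
        intro h
        have hxt : x = acst A aT := Fin.ext (by omega)
        have := ar_t hA
        rw [← hxt] at this
        omega
    · refine ⟨false, 8, by omega, ?_, fun R hR => ?_⟩
      · refine ⟨fun h => absurd h (by simp), fun h => ?_⟩
        exact absurd (h x y le_rfl (by omega) hxy) hu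
      · exact (key R hR).1 (fun h => hu ((hite _ _).1 h))

theorem A_bd (hA : (Ar k).Mem A) (hB : (Ar k).Mem B) :
    ∃ b : Bool, ∃ s ≤ 17 * tnum k n + 32, (b = true ↔ Iso A B) ∧
      Bd aProg (pairCode A B) (6 * (n * n) + 6 * n + 10) ⟨0, fun _ => 0⟩ b s := by
  classical
  obtain ⟨a1, a2, a3, a4, a5⟩ := look_A A (code B)
  obtain ⟨b1, b2, b3, b4, b5⟩ := look_A B []
  obtain ⟨b, s, hs, hb, hall⟩ := aProg_steps hA hB (tnum k n) (acst A aZ) (acst B aZ)
    (by rw [ar_z hA, ar_z hB]) (by rw [ar_z hA]; omega)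
  refine ⟨b, s + 20, by omega, ?_, ?_⟩
  · rw [hb, isoA_iff_u hA hB, ar_z hA]
    constructor
    · intro h x y hxy
      by_cases hx : rk (alt A) x ≤ tnum k n
      · exact h x y (Nat.zero_le _) hx hxy
      · have h1 : ¬ au A x := fun h' => hx (ar_u hA h')
        have h2 : ¬ au B y := fun h' => hx (by rw [hxy]; exact ar_u hB h')
        exact ⟨fun h' => absurd h' h1, fun h' => absurd h' h2⟩
    · intro h x y _ _ hxy
      exact h x y hxy
  · exact aProg_start rfl (by nlinarith) (acst A aZ).isLt (acst B aZ).isLt (acst A aT).isLt a1 a3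
      ((look_right _ _ _ _ (length_code_A A)).trans b3) a4 hall

end

end Pool.Agent.H82.RA
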