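import Mathlib

set_option autoImplicit false

namespace Pool.Agent.H82.RA

/-! ### Positions in a finite linear order -/

/-- A strict linear order. -/
structure Lin {n : ℕ} (r : Fin n → Fin n → Prop) : Prop where
  irr : ∀ x, ¬ r x x
  trans : ∀ x y z, r x y → r y z → r x z
  total : ∀ x y, r x y ∨ x = y ∨ r y x

open Classical in
/-- The number of elements below `x`. -/
noncomputable def rk {n : ℕ} (r : Fin n → Fin n → Prop) (x : Fin n) : ℕ :=
  (Finset.univ.filter fun z => r z x).card

theorem rk_iso {n : ℕ} (r r' : Fin n → Fin n → Prop) (e : Fin n ≃ Fin n)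
    (h : ∀ x y, r' (e x) (e y) ↔ r x y) (x : Fin n) : rk r' (e x) = rk r x := by
  classical
  unfold rk
  symm
  refine Finset.card_equiv e ?_
  intro z
  simp [h]

section

variable {n : ℕ} {r : Fin n → Fin n → Prop} (h : Lin r)

include h

theorem Lin.rk_lt_rk {x y : Fin n} (hxy : r x y) : rk r x < rk r y := by
  classical
  unfold rk
  refine Finset.card_lt_card ?_
  rw [Finset.ssubset_iff_of_subset]
  · refine ⟨x, ?_, ?_⟩
    · simpa using hxy
    · simpa using h.irr x
  · intro z hz
    simp only [Finset.mem_filter, Finset.mem_univ, true_and] at hz ⊢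
    exact h.trans z x y hz hxy

theorem Lin.rk_lt_iff {x y : Fin n} : rk r x < rk r y ↔ r x y := by
  constructor
  · intro h1
    rcases h.total x y with h' | h' | h'
    · exact h'
    · rw [h'] at h1
      exact absurd h1 (lt_irrefl _)
    · exact absurd (h.rk_lt_rk h') (by omega)
  · exact h.rk_lt_rk

theorem Lin.rk_inj {x y : Fin n} (h1 : rk r x = rk r y) : x = y := by
  rcases h.total x y with h' | h' | h'
  · exact absurd (h.rk_lt_rk h') (by omega)
  · exact h'
  · exact absurd (h.rk_lt_rk h') (by omega)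

theorem Lin.rk_lt (x : Fin n) : rk r x < n := by
  classical
  have : (Finset.univ.filter fun z => r z x).card < (Finset.univ : Finset (Fin n)).card := by
    refine Finset.card_lt_card ?_
    rw [Finset.ssubset_iff_of_subset (Finset.subset_univ _)]
    exact ⟨x, Finset.mem_univ _, by simpa using h.irr x⟩
  simpa [rk] using this

theorem Lin.exists_rk (k : ℕ) (hk : k < n) : ∃ x, rk r x = k := by
  have hinj : Function.Injective (fun x : Fin n => (⟨rk r x, h.rk_lt x⟩ : Fin n)) := by
    intro x y hxy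
    exact h.rk_inj (congrArg Fin.val hxy)
  obtain ⟨x, hx⟩ := Finite.surjective_of_injective hinj ⟨k, hk⟩
  exact ⟨x, congrArg Fin.val hx⟩

theorem Lin.rk_least {z : Fin n} (hz : ∀ x, ¬ r x z) : rk r z = 0 := by
  by_contra hne
  obtain ⟨x, hx⟩ := h.exists_rk 0 (by have := h.rk_lt z; omega)
  exact hz x (h.rk_lt_iff.1 (by omega))

theorem Lin.rk_greatest {m : Fin n} (hm : ∀ x, ¬ r m x) : rk r m = n - 1 := by
  have h1 := h.rk_lt m
  by_contra hne
  obtain ⟨x, hx⟩ := h.exists_rk (n - 1) (by omega)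
  exact hm x (h.rk_lt_iff.1 (by omega))

theorem Lin.rk_succ {x y : Fin n} (hxy : r x y) (hno : ∀ z, ¬ (r x z ∧ r z y)) :
    rk r y = rk r x + 1 := by
  have h1 := h.rk_lt_rk hxy
  have h2 := h.rk_lt y
  by_contra hne
  obtain ⟨z, hz⟩ := h.exists_rk (rk r x + 1) (by omega)
  exact hno z ⟨h.rk_lt_iff.1 (by omega), h.rk_lt_iff.1 (by omega)⟩

/-- The order isomorphism onto `{0, ..., n - 1}`. -/
noncomputable def Lin.eqv : Fin n ≃ Fin n :=
  Equiv.ofBijective (fun x : Fin n => (⟨rk r x, h.rk_lt x⟩ : Fin n))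
    (Finite.injective_iff_bijective.1 fun _ _ hxy => h.rk_inj (congrArg Fin.val hxy))

theorem Lin.eqv_val (x : Fin n) : (h.eqv x).val = rk r x := rfl

theorem Lin.rk_symm (k : Fin n) : rk r (h.eqv.symm k) = k.val := by
  rw [← h.eqv_val, Equiv.apply_symm_apply]

end

/-- The order isomorphism between two linear orders. -/
theorem Lin.exists_iso {n : ℕ} {r r' : Fin n → Fin n → Prop} (h : Lin r) (h' : Lin r') :
    ∃ e : Fin n ≃ Fin n, ∀ x, rk r' (e x) = rk r x := by
  refine ⟨h.eqv.trans h'.eqv.symm, fun x => ?_⟩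
  rw [Equiv.trans_apply, h'.rk_symm, h.eqv_val]

theorem rk_fin_lt {n : ℕ} (x : Fin n) : rk (fun a b : Fin n => a < b) x = x.val := by
  classical
  unfold rk
  refine (congrArg Finset.card ?_).trans (Fin.card_Iio x)
  ext z
  simp

end Pool.Agent.H82.RA
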