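import Pool.Agent.H82.RA.Ar
import Pool.Agent.H82.RA.Rank

set_option autoImplicit false

namespace Pool.Agent.H82.RA

/-- The number of the element `l`. -/
def lnum (n : ℕ) : ℕ := Nat.clog 2 (n - 1)

/-- The number of the element `t`. -/
def tnum (k n : ℕ) : ℕ := min (lnum n ^ k) (n - 1)

section

variable {n k : ℕ} {A : Str sigA n} (hA : (Ar k).Mem A)

include hA

theorem ar_lin : Lin (alt A) := by
  obtain ⟨h1, h2, h3, _⟩ := (mem_Ar k A).1 hA
  exact ⟨h1, h2, h3⟩

theorem ar_pos : 0 < n := by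
  have := (acst A aZ).isLt
  omega

theorem ar_z : rk (alt A) (acst A aZ) = 0 := by
  obtain ⟨_, _, _, h4, _⟩ := (mem_Ar k A).1 hA
  exact (ar_lin hA).rk_least h4

theorem ar_m : rk (alt A) (acst A aM) = n - 1 := by
  obtain ⟨_, _, _, _, h5, _⟩ := (mem_Ar k A).1 hA
  exact (ar_lin hA).rk_greatest h5

theorem ar_ne_m {x : Fin n} : x ≠ acst A aM ↔ rk (alt A) x < n - 1 := by
  have h1 := (ar_lin hA).rk_lt x
  rw [← ar_m hA]
  constructor
  · intro h
    have : rk (alt A) x ≠ rk (alt A) (acst A aM) := fun h' => h ((ar_lin hA).rk_inj h')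
    rw [ar_m hA] at this ⊢
    omega
  · rintro h rfl
    exact absurd h (lt_irrefl _)

theorem ar_s (x : Fin n) : rk (alt A) (afn A aS x) = min (rk (alt A) x + 1) (n - 1) := by
  obtain ⟨_, _, _, _, _, h6, h7, _⟩ := (mem_Ar k A).1 hA
  by_cases hx : x = acst A aM
  · rw [hx, h6, ar_m hA]
    omega
  · obtain ⟨h8, h9⟩ := h7 x hx
    have h10 := (ar_lin hA).rk_succ h8 h9
    have h11 := (ar_lin hA).rk_lt (afn A aS x)
    omega

theorem ar_add (j : ℕ) : ∀ x y, rk (alt A) y = j →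
    rk (alt A) (abin A aAdd x y) = min (rk (alt A) x + j) (n - 1) := by
  obtain ⟨_, _, _, _, _, _, _, h8, h9, _⟩ := (mem_Ar k A).1 hA
  induction j with
  | zero =>
    intro x y hy
    have : y = acst A aZ := (ar_lin hA).rk_inj (by rw [hy, ar_z hA])
    rw [this, h8]
    have := (ar_lin hA).rk_lt x
    omega
  | succ j ih =>
    intro x y hy
    have hyn := (ar_lin hA).rk_lt y
    obtain ⟨y', hy'⟩ := (ar_lin hA).exists_rk j (by omega)
    have hne : y' ≠ acst A aM := (ar_ne_m hA).2 (by omega)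
    have hyy : y = afn A aS y' := (ar_lin hA).rk_inj (by rw [ar_s hA, hy, hy']; omega)
    rw [hyy, h9 x y' hne, ar_s hA, ih x y' hy']
    omega

theorem ar_mul (j : ℕ) : ∀ x y, rk (alt A) y = j →
    rk (alt A) (abin A aMul x y) = min (rk (alt A) x * j) (n - 1) := by
  obtain ⟨_, _, _, _, _, _, _, _, _, h10, h11, _⟩ := (mem_Ar k A).1 hA
  induction j with
  | zero =>
    intro x y hy
    have : y = acst A aZ := (ar_lin hA).rk_inj (by rw [hy, ar_z hA])
    rw [this, h10, ar_z hA]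
    omega
  | succ j ih =>
    intro x y hy
    have hyn := (ar_lin hA).rk_lt y
    obtain ⟨y', hy'⟩ := (ar_lin hA).exists_rk j (by omega)
    have hne : y' ≠ acst A aM := (ar_ne_m hA).2 (by omega)
    have hyy : y = afn A aS y' := (ar_lin hA).rk_inj (by rw [ar_s hA, hy, hy']; omega)
    rw [hyy, h11 x y' hne, ar_add hA _ _ x rfl, ih x y' hy', Nat.mul_succ]
    omega

theorem ar_e (j : ℕ) : ∀ x, rk (alt A) x = j →
    rk (alt A) (afn A aE x) = min (2 ^ j) (n - 1) := by
  obtain ⟨_, _, _, _, _, _, _, _, _, _, _, h12, h13, _⟩ := (mem_Ar k A).1 hA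
  induction j with
  | zero =>
    intro x hx
    have : x = acst A aZ := (ar_lin hA).rk_inj (by rw [hx, ar_z hA])
    rw [this, h12, ar_s hA, ar_z hA]
    norm_num
  | succ j ih =>
    intro x hx
    have hxn := (ar_lin hA).rk_lt x
    obtain ⟨x', hx'⟩ := (ar_lin hA).exists_rk j (by omega)
    have hne : x' ≠ acst A aM := (ar_ne_m hA).2 (by omega)
    have hxx : x = afn A aS x' := (ar_lin hA).rk_inj (by rw [ar_s hA, hx, hx']; omega)
    rw [hxx, h13 x' hne, ar_add hA _ _ _ rfl, ih x' hx', pow_succ]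
    omega

theorem ar_l : rk (alt A) (acst A aL) = lnum n := by
  obtain ⟨_, _, _, _, _, _, _, _, _, _, _, _, _, h14, h15, _⟩ := (mem_Ar k A).1 hA
  have h1 := ar_e hA _ _ (rfl : rk (alt A) (acst A aL) = _)
  rw [h14, ar_m hA] at h1
  have hle : lnum n ≤ rk (alt A) (acst A aL) := by
    unfold lnum
    rw [Nat.clog_le_iff_le_pow (by norm_num)]
    omega
  by_contra hne
  have hlt : lnum n < rk (alt A) (acst A aL) := by omega
  obtain ⟨x, hx⟩ := (ar_lin hA).exists_rk (lnum n)
    (by have := (ar_lin hA).rk_lt (acst A aL); omega)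
  have h2 := ar_e hA _ x hx
  have h3 : n - 1 ≤ 2 ^ lnum n := by
    unfold lnum
    exact Nat.le_pow_clog (by norm_num) _
  refine h15 x ((ar_lin hA).rk_lt_iff.1 (by omega)) ((ar_lin hA).rk_inj ?_)
  rw [h2, ar_m hA]
  omega

theorem ar_pw (j : ℕ) : rk (alt A) (apw A j) = tnum j n := by
  induction j with
  | zero =>
    unfold apw tnum
    rw [ar_s hA, ar_z hA, pow_zero]
    omega
  | succ j ih =>
    unfold apw
    rw [ar_mul hA _ _ _ (ar_l hA), ih]
    unfold tnum
    rcases Nat.le_total (lnum n ^ j) (n - 1) with h | h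
    · rw [min_eq_left h, pow_succ]
    · rw [min_eq_right h]
      rcases Nat.eq_zero_or_pos (lnum n) with h0 | h0
      · rw [h0, zero_pow (Nat.succ_ne_zero j), mul_zero]
      · have h1 : n - 1 ≤ (n - 1) * lnum n := Nat.le_mul_of_pos_right _ h0
        have h2 : lnum n ^ j ≤ lnum n ^ (j + 1) := Nat.pow_le_pow_right h0 (by omega)
        omega

theorem ar_t : rk (alt A) (acst A aT) = tnum k n := by
  obtain ⟨_, _, _, _, _, _, _, _, _, _, _, _, _, _, _, h16, _⟩ := (mem_Ar k A).1 hA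
  rw [h16]
  exact ar_pw hA k

theorem ar_u {x : Fin n} (hx : au A x) : rk (alt A) x ≤ tnum k n := by
  obtain ⟨_, _, _, _, _, _, _, _, _, _, _, _, _, _, _, _, h17⟩ := (mem_Ar k A).1 hA
  have := h17 x hx
  rw [← (ar_lin hA).rk_lt_iff, ar_t hA] at this
  omega

end

end Pool.Agent.H82.RA
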