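import Pool.Agent.H82.RA.ArIso
import Pool.Agent.H82.RA.FinS

set_option autoImplicit false

namespace Pool.Agent.H82.RA

open Filter

/-- The number `a`, truncated. -/
def cl {n : ℕ} (hn : 0 < n) (a : ℕ) : Fin n := ⟨min a (n - 1), by omega⟩

/-- The argument number `i`. -/
def argn {n k : ℕ} (hn : 0 < n) (x : Fin k → Fin n) (i : ℕ) : Fin n :=
  if h : i < k then x ⟨i, h⟩ else cl hn 0

/-- The standard member of `Ar k` in which `U` holds of the elements with number in `V`. -/
@[reducible] def stdA (k : ℕ) {n : ℕ} (hn : 0 < n) (V : ℕ → Prop) : Str sigA n where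
  funMap := fun {_} f x =>
    if f.1.val = 0 then cl hn 0
    else if f.1.val = 1 then cl hn (lnum n ^ k)
    else if f.1.val = 2 then cl hn (lnum n)
    else if f.1.val = 3 then cl hn (n - 1)
    else if f.1.val = 4 then cl hn ((argn hn x 0).val + 1)
    else if f.1.val = 5 then cl hn (2 ^ (argn hn x 0).val)
    else if f.1.val = 6 then cl hn ((argn hn x 0).val + (argn hn x 1).val)
    else cl hn ((argn hn x 0).val * (argn hn x 1).val)
  RelMap := fun {_} r x =>
    if r.1.val = 0 then argn hn x 0 < argn hn x 1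
    else V (argn hn x 0).val ∧ (argn hn x 0).val ≤ tnum k n

section

variable {n : ℕ} (k : ℕ) (hn : 0 < n) (V : ℕ → Prop)

theorem std_lt (x y : Fin n) : alt (stdA k hn V) x y ↔ x < y := by
  unfold alt stdA
  simp [aLt, argn]

theorem std_u (x : Fin n) : au (stdA k hn V) x ↔ V x.val ∧ x.val ≤ tnum k n := by
  unfold au stdA
  simp [aU, argn]

theorem std_z : acst (stdA k hn V) aZ = cl hn 0 := by
  unfold acst stdA
  simp [aZ]

theorem std_t : acst (stdA k hn V) aT = cl hn (lnum n ^ k) := by
  unfold acst stdA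
  simp [aT]

theorem std_l : acst (stdA k hn V) aL = cl hn (lnum n) := by
  unfold acst stdA
  simp [aL]

theorem std_m : acst (stdA k hn V) aM = cl hn (n - 1) := by
  unfold acst stdA
  simp [aM]

theorem std_s (x : Fin n) : afn (stdA k hn V) aS x = cl hn (x.val + 1) := by
  unfold afn stdA
  simp [aS, argn]

theorem std_e (x : Fin n) : afn (stdA k hn V) aE x = cl hn (2 ^ x.val) := by
  unfold afn stdA
  simp [aE, argn]

theorem std_add (x y : Fin n) : abin (stdA k hn V) aAdd x y = cl hn (x.val + y.val) := by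
  unfold abin stdA
  simp [aAdd, argn]

theorem std_mul (x y : Fin n) : abin (stdA k hn V) aMul x y = cl hn (x.val * y.val) := by
  unfold abin stdA
  simp [aMul, argn]

theorem std_pw (j : ℕ) : apw (stdA k hn V) j = cl hn (lnum n ^ j) := by
  induction j with
  | zero =>
    unfold apw
    rw [std_s, std_z]
    refine Fin.ext ?_
    simp only [cl, pow_zero]
    omega
  | succ j ih =>
    unfold apw
    rw [std_mul, ih, std_l]
    refine Fin.ext ?_
    simp only [cl]
    rcases Nat.le_total (lnum n) (n - 1) with hl | hl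
    · rw [min_eq_left hl]
      rcases Nat.le_total (lnum n ^ j) (n - 1) with h | h
      · rw [min_eq_left h, pow_succ]
      · rw [min_eq_right h]
        rcases Nat.eq_zero_or_pos (lnum n) with h0 | h0
        · rw [h0, zero_pow (Nat.succ_ne_zero j), mul_zero]
        · have h1 : n - 1 ≤ (n - 1) * lnum n := Nat.le_mul_of_pos_right _ h0
          have h2 : lnum n ^ j ≤ lnum n ^ (j + 1) := Nat.pow_le_pow_right h0 (by omega)
          omega
    · have hl2 : lnum n ≤ n - 1 := by
        unfold lnum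
        rw [Nat.clog_le_iff_le_pow (by norm_num)]
        exact (Nat.lt_two_pow_self).le
      have hl3 : lnum n = n - 1 := by omega
      rw [hl3, min_self]
      rcases Nat.le_total ((n - 1) ^ j) (n - 1) with h | h
      · rw [min_eq_left h, pow_succ]
      · rw [min_eq_right h]
        rcases Nat.eq_zero_or_pos (n - 1) with h0 | h0
        · rw [h0]
          simp
        · have h1 : n - 1 ≤ (n - 1) * (n - 1) := Nat.le_mul_of_pos_right _ h0
          have h2 : (n - 1) ^ j ≤ (n - 1) ^ (j + 1) := Nat.pow_le_pow_right h0 (by omega)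
          omega

theorem std_mem_Ar : (Ar k).Mem (stdA k hn V) := by
  rw [mem_Ar]
  have hcl : ∀ a, (cl hn a).val = min a (n - 1) := fun _ => rfl
  simp only [std_lt, std_u, std_z, std_t, std_l, std_m, std_s, std_e, std_add, std_mul, std_pw,
    hcl]
  refine ⟨fun x => lt_irrefl x, fun x y z => lt_trans, fun x y => lt_trichotomy x y, ?_, ?_, ?_,
    ?_, ?_, ?_, ?_, ?_, ?_, ?_, ?_, ?_, ?_, ?_⟩
  · intro x hx
    rw [Fin.lt_def, hcl] at hx
    omega
  · intro x hx
    rw [Fin.lt_def, hcl] at hx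
    omega
  · refine Fin.ext ?_
    rw [hcl, hcl]
    omega
  · intro x hx
    have hx' : x.val ≠ n - 1 := fun h => hx (Fin.ext (by rw [hcl]; omega))
    refine ⟨?_, ?_⟩
    · rw [Fin.lt_def, hcl]
      omega
    · rintro y ⟨h1, h2⟩
      rw [Fin.lt_def] at h1 h2
      rw [hcl] at h2
      omega
  · intro x
    refine Fin.ext ?_
    rw [hcl]
    omega
  · intro x y hy
    have hy' : y.val ≠ n - 1 := fun h => hy (Fin.ext (by rw [hcl]; omega))
    refine Fin.ext ?_
    rw [hcl, hcl]
    omega
  · intro x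
    refine Fin.ext ?_
    rw [hcl, hcl]
    simp
  · intro x y hy
    have hy' : y.val ≠ n - 1 := fun h => hy (Fin.ext (by rw [hcl]; omega))
    refine Fin.ext ?_
    rw [hcl, hcl, show min (y.val + 1) (n - 1) = y.val + 1 by omega, Nat.mul_succ]
    omega
  · refine Fin.ext ?_
    rw [hcl, hcl]
    simp
  · intro x hx
    have hx' : x.val ≠ n - 1 := fun h => hx (Fin.ext (by rw [hcl]; omega))
    refine Fin.ext ?_
    rw [hcl, hcl, show min (x.val + 1) (n - 1) = x.val + 1 by omega, pow_succ]
    omega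
  · have hl2 : lnum n ≤ n - 1 := by
      unfold lnum
      rw [Nat.clog_le_iff_le_pow (by norm_num)]
      exact (Nat.lt_two_pow_self).le
    have h3 : n - 1 ≤ 2 ^ lnum n := by
      unfold lnum
      exact Nat.le_pow_clog (by norm_num) _
    refine Fin.ext ?_
    rw [hcl, hcl, min_eq_left hl2]
    omega
  · intro x hx h
    rw [Fin.lt_def, hcl] at hx
    have h1 := congrArg Fin.val h
    rw [hcl, hcl] at h1
    have h2 : lnum n ≤ x.val := by
      unfold lnum
      rw [Nat.clog_le_iff_le_pow (by norm_num)]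
      omega
    omega
  · trivial
  · rintro x ⟨_, hx⟩ h
    rw [Fin.lt_def, hcl] at h
    unfold tnum at hx
    omega

theorem std_rk (x : Fin n) : rk (alt (stdA k hn V)) x = x.val := by
  have : alt (stdA k hn V) = fun a b : Fin n => a < b := by
    funext a b
    exact propext (std_lt k hn V a b)
  rw [this, rk_fin_lt]

end

/-- The number of types of `n`-element members of `Ar k` is at least `2 ^ (t + 1)`. -/
theorem Ar_types_ge (k n : ℕ) (hn : 0 < n) : 2 ^ (tnum k n + 1) ≤ (Ar k).types n := by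
  classical
  unfold FOClass.types
  have hfs : Finite (Str (Ar k).sig n) := finite_str (Ar k).sig n
  have hfin : Finite (Quotient ((Ar k).isoSetoid n)) := inferInstance
  let P : Set (Fin (tnum k n + 1)) → ℕ → Prop := fun V i =>
    ∃ h : i < tnum k n + 1, (⟨i, h⟩ : Fin (tnum k n + 1)) ∈ V
  let F : Set (Fin (tnum k n + 1)) → Quotient ((Ar k).isoSetoid n) := fun V =>
    Quotient.mk _ ⟨stdA k hn (P V), std_mem_Ar k hn _⟩
  have hF : Function.Injective F := by
    intro V W h
    have h1 : Iso (stdA k hn (P V)) (stdA k hn (P W)) := Quotient.exact h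
    have h2 := (isoA_iff_u (std_mem_Ar k hn _) (std_mem_Ar k hn _)).1 h1
    ext ⟨i, hi⟩
    have hin : i < n := by
      unfold tnum at hi
      omega
    have h3 := h2 ⟨i, hin⟩ ⟨i, hin⟩ (by rw [std_rk, std_rk])
    rw [std_u, std_u] at h3
    constructor
    · intro hV
      obtain ⟨⟨_, h4⟩, _⟩ := h3.1 ⟨⟨hi, hV⟩, by show i ≤ _; omega⟩
      exact h4
    · intro hW
      obtain ⟨⟨_, h4⟩, _⟩ := h3.2 ⟨⟨hi, hW⟩, by show i ≤ _; omega⟩
      exact h4
  have h1 := Nat.card_le_card_of_injective F hF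
  have h2 : Nat.card (Set (Fin (tnum k n + 1))) = 2 ^ (tnum k n + 1) := by
    rw [Nat.card_eq_fintype_card, Fintype.card_set, Fintype.card_fin]
  rw [h2] at h1
  exact h1

theorem log_le_lnum {n : ℕ} (hn : 3 ≤ n) : Nat.log 2 n ≤ lnum n := by
  unfold lnum
  by_contra hlt
  push Not at hlt
  have h1 : n - 1 ≤ 2 ^ Nat.clog 2 (n - 1) := Nat.le_pow_clog (by norm_num) _
  have h2 : 2 ^ Nat.log 2 n ≤ n := Nat.pow_log_le_self 2 (by omega)
  have h3 : 2 ^ (Nat.clog 2 (n - 1) + 1) ≤ 2 ^ Nat.log 2 n :=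
    Nat.pow_le_pow_right (by norm_num) hlt
  rw [pow_succ] at h3
  omega

theorem le_two_pow_tnum {k n : ℕ} (hk : k ≠ 0) (hn : 0 < n) : n ≤ 2 ^ (tnum k n + 1) := by
  unfold tnum
  rcases Nat.le_total (lnum n ^ k) (n - 1) with h | h
  · rw [min_eq_left h]
    have h1 : n - 1 ≤ 2 ^ lnum n := by
      unfold lnum
      exact Nat.le_pow_clog (by norm_num) _
    have h2 : lnum n ≤ lnum n ^ k := Nat.le_self_pow hk _
    have h3 : 2 ^ lnum n ≤ 2 ^ (lnum n ^ k) := Nat.pow_le_pow_right (by norm_num) h2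
    have h4 : 1 ≤ 2 ^ lnum n := Nat.one_le_two_pow
    rw [pow_succ]
    omega
  · rw [min_eq_right h]
    have : n - 1 + 1 = n := by omega
    rw [this]
    exact (Nat.lt_two_pow_self).le

/-- The number of types is superpolynomial. -/
theorem Ar_many (k : ℕ) : ∀ᶠ n in atTop, 2 ^ (Nat.log 2 n ^ k) ≤ (Ar k).types n := by
  have hlim : Tendsto (fun l : ℕ => (l : ℝ) ^ k / 2 ^ l) atTop (nhds 0) :=
    tendsto_pow_const_div_const_pow_of_one_lt k (by norm_num)
  have hlim2 := hlim.eventually (gt_mem_nhds (show (0 : ℝ) < 1 / 2 by norm_num))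
  have htl : Tendsto (fun n : ℕ => Nat.log 2 n) atTop atTop := by
    rw [tendsto_atTop]
    intro b
    filter_upwards [eventually_ge_atTop (2 ^ b)] with n hn
    exact Nat.le_log_of_pow_le (by norm_num) hn
  filter_upwards [htl.eventually hlim2, eventually_ge_atTop 3] with n h1 hn
  refine le_trans ?_ (Ar_types_ge k n (by omega))
  refine Nat.pow_le_pow_right (by norm_num) ?_
  have h2 : Nat.log 2 n ^ k ≤ lnum n ^ k := Nat.pow_le_pow_left (log_le_lnum hn) k
  have h3 : Nat.log 2 n ^ k ≤ n - 1 := by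
    have h4 : 2 ^ Nat.log 2 n ≤ n := Nat.pow_log_le_self 2 (by omega)
    rw [div_lt_iff₀ (by positivity)] at h1
    have h5 : (2 : ℝ) ^ Nat.log 2 n ≤ n := by exact_mod_cast h4
    have h6 : ((Nat.log 2 n ^ k : ℕ) : ℝ) < n / 2 := by
      push_cast
      linarith
    have h7 : 2 * ((Nat.log 2 n ^ k : ℕ) : ℝ) < n := by linarith
    have h8 : 2 * Nat.log 2 n ^ k < n := by exact_mod_cast h7
    omega
  unfold tnum
  omega

end Pool.Agent.H82.RA
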