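import Pool.Agent.H82.RA.Exec

set_option autoImplicit false

namespace Pool.Agent.H82.RA

open Filter

/-! ### The two programs -/

/-- A program comparing the binary digits of the positions of two constants. -/
def kProg : List Instr :=
  [.read 1 0, .mul 3 1 1, .const 2 1, .add 4 3 1, .add 4 4 2, .add 5 4 1, .add 5 5 2,
   .add 6 5 3, .add 7 5 4, .read 8 4, .read 9 7,
   .add 10 3 8, .read 10 10, .add 11 6 9, .read 11 11, .sub 12 10 11, .sub 13 11 10,
   .add 12 12 13, .jump 12 20, .halt false,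
   .add 10 4 8, .read 10 10, .add 11 7 9, .read 11 11, .sub 12 10 8, .sub 13 8 10,
   .add 12 12 13, .sub 13 11 9, .add 12 12 13, .sub 13 9 11, .add 12 12 13, .jump 12 35,
   .add 8 10 0, .add 9 11 0, .jump 0 11, .halt true]

/-- A program comparing the numbers of elements of two unary relations. -/
def jProg : List Instr :=
  [.read 1 0, .const 2 1, .add 3 1 2,
   .jump 1 11, .read 6 1, .add 4 4 6, .add 7 3 1, .read 7 7, .add 5 5 7, .sub 1 1 2, .jump 0 3,
   .sub 6 4 5, .sub 7 5 4, .add 6 6 7, .jump 6 16, .halt false, .halt true]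

/-- The values of the registers at the head of the loop of `kProg`. -/
structure KInv (n M a b : ℕ) (R : ℕ → ℕ) : Prop where
  le : ∀ x, R x ≤ M
  h0 : R 0 = 0
  h3 : R 3 = n * n
  h4 : R 4 = n * n + n + 1
  h6 : R 6 = (n * n + n + 1 + n + 1) + n * n
  h7 : R 7 = (n * n + n + 1 + n + 1) + (n * n + n + 1)
  h8 : R 8 = a
  h9 : R 9 = b

theorem kProg_loop {w : List ℕ} {n M a b oa ob ha hb : ℕ} {R : ℕ → ℕ}
    (hR : KInv n M a b R) (han : a ≤ n) (hbn : b ≤ n)
    (hoa1 : oa ≤ 1) (hob1 : ob ≤ 1) (hha1 : ha ≤ n) (hhb1 : hb ≤ n)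
    (hM : 2 * (n * n) + 4 * n + 4 ≤ M)
    (hoa : w[n * n + a]?.getD 0 = oa)
    (hob : w[(n * n + n + 1 + n + 1) + n * n + b]?.getD 0 = ob)
    (hha : w[n * n + n + 1 + a]?.getD 0 = ha)
    (hhb : w[(n * n + n + 1 + n + 1) + (n * n + n + 1) + b]?.getD 0 = hb) :
    (oa ≠ ob → Bd kProg w M ⟨11, R⟩ false 8) ∧
    (oa = ob → ha = a → hb = b → Bd kProg w M ⟨11, R⟩ true 20) ∧
    (oa = ob → ¬ (ha = a ∧ hb = b) → ∀ r s, (∀ R', KInv n M ha hb R' →
      Bd kProg w M ⟨11, R'⟩ r s) → Bd kProg w M ⟨11, R⟩ r (s + 23)) := by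
  obtain ⟨hle, h0, h3, h4, h6, h7, h8, h9⟩ := hR
  have first : ∀ (r : Bool) (s : ℕ), (∀ R' : ℕ → ℕ, (∀ x, R' x ≤ M) → R' 0 = 0 → R' 3 = n * n →
      R' 4 = n * n + n + 1 →
      R' 6 = (n * n + n + 1 + n + 1) + n * n →
      R' 7 = (n * n + n + 1 + n + 1) + (n * n + n + 1) → R' 8 = a → R' 9 = b →
      R' 12 = (oa - ob) + (ob - oa) → Bd kProg w M ⟨18, R'⟩ r s) →
      Bd kProg w M ⟨11, R⟩ r (s + 7) := by
    intro r s hnext
    refine bd_add (n * n + a) rfl hle (by rw [h3, h8]) (by omega) fun hle => ?_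
    refine bd_read (n * n + a) oa rfl hle (by simp) hoa (by omega) fun hle => ?_
    refine bd_add ((n * n + n + 1 + n + 1) + n * n + b) rfl hle
      (by simp [h6, h9]) (by omega) fun hle => ?_
    refine bd_read ((n * n + n + 1 + n + 1) + n * n + b) ob rfl hle (by simp) hob (by omega)
      fun hle => ?_
    refine bd_sub (oa - ob) rfl hle (by simp) (by omega) fun hle => ?_
    refine bd_sub (ob - oa) rfl hle (by simp) (by omega) fun hle => ?_
    refine bd_add ((oa - ob) + (ob - oa)) rfl hle (by simp) (by omega)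
      fun hle => ?_
    refine hnext _ hle ?_ ?_ ?_ ?_ ?_ ?_ ?_ ?_ <;> simp [*]
  have second : ∀ (r : Bool) (s : ℕ) (R : ℕ → ℕ), (∀ x, R x ≤ M) → R 0 = 0 → R 3 = n * n →
      R 4 = n * n + n + 1 →
      R 6 = (n * n + n + 1 + n + 1) + n * n →
      R 7 = (n * n + n + 1 + n + 1) + (n * n + n + 1) → R 8 = a → R 9 = b →
      (∀ R' : ℕ → ℕ, (∀ x, R' x ≤ M) → R' 0 = 0 → R' 3 = n * n →
      R' 4 = n * n + n + 1 →
      R' 6 = (n * n + n + 1 + n + 1) + n * n →
      R' 7 = (n * n + n + 1 + n + 1) + (n * n + n + 1) → R' 10 = ha → R' 11 = hb →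
      R' 12 = (ha - a) + (a - ha) + (hb - b) + (b - hb) → Bd kProg w M ⟨31, R'⟩ r s) →
      Bd kProg w M ⟨20, R⟩ r (s + 11) := by
    intro r s R hle h0 h3 h4 h6 h7 h8 h9 hnext
    refine bd_add (n * n + n + 1 + a) rfl hle (by rw [h4, h8]) (by omega) fun hle => ?_
    refine bd_read (n * n + n + 1 + a) ha rfl hle (by simp) hha (by omega) fun hle => ?_
    refine bd_add ((n * n + n + 1 + n + 1) + (n * n + n + 1) + b) rfl hle
      (by simp [h7, h9]) (by omega) fun hle => ?_
    refine bd_read ((n * n + n + 1 + n + 1) + (n * n + n + 1) + b) hb rfl hle (by simp) hhb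
      (by omega) fun hle => ?_
    refine bd_sub (ha - a) rfl hle (by simp [h8]) (by omega)
      fun hle => ?_
    refine bd_sub (a - ha) rfl hle (by simp [h8]) (by omega)
      fun hle => ?_
    refine bd_add ((ha - a) + (a - ha)) rfl hle (by simp) (by omega)
      fun hle => ?_
    refine bd_sub (hb - b) rfl hle (by simp [h9]) (by omega)
      fun hle => ?_
    refine bd_add ((ha - a) + (a - ha) + (hb - b)) rfl hle (by simp)
      (by omega) fun hle => ?_
    refine bd_sub (b - hb) rfl hle (by simp [h9]) (by omega)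
      fun hle => ?_
    refine bd_add ((ha - a) + (a - ha) + (hb - b) + (b - hb)) rfl hle
      (by simp) (by omega) fun hle => ?_
    refine hnext _ hle ?_ ?_ ?_ ?_ ?_ ?_ ?_ ?_ <;> simp [*]
  refine ⟨fun hne => ?_, fun heq hea heb => ?_, fun heq hne r s hnext => ?_⟩
  · refine first false 1 fun R' hle' _ _ _ _ _ _ _ h12 => ?_
    exact bd_stay rfl hle' (by rw [h12]; omega) (bd_halt rfl)
  · refine first true 13 fun R' hle' h0 h3 h4 h6 h7 h8 h9 h12 => ?_
    refine bd_jump rfl hle' (by rw [h12]; omega) ?_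
    refine second true 1 R' hle' h0 h3 h4 h6 h7 h8 h9 ?_
    intro R' hle' _ _ _ _ _ _ _ h12
    exact bd_jump rfl hle' (by rw [h12]; omega) (bd_halt rfl)
  · refine first r (s + 16) fun R' hle' h0 h3 h4 h6 h7 h8 h9 h12 => ?_
    refine bd_jump rfl hle' (by rw [h12]; omega) ?_
    refine second r (s + 4) R' hle' h0 h3 h4 h6 h7 h8 h9 ?_
    intro R' hle h0 h3 h4 h6 h7 h10 h11 h12
    refine bd_stay rfl hle (by rw [h12]; omega) ?_
    refine bd_add ha rfl hle (by rw [h10, h0]; rfl) (by omega) fun hle => ?_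
    refine bd_add hb rfl hle (by simp [h11, h0]) (by omega) fun hle => ?_
    refine bd_jump rfl hle (by simp [h0]) ?_
    refine hnext _ ⟨hle, ?_, ?_, ?_, ?_, ?_, ?_, ?_⟩ <;> simp [*]

/-- The whole loop: `ρA` and `ρB` give the numbers whose binary digits are compared. -/
theorem kProg_digits {w : List ℕ} {n M : ℕ} {oA oB ρA ρB : Fin n → ℕ} {hA hB : Fin n → Fin n}
    (hM : 2 * (n * n) + 4 * n + 4 ≤ M)
    (hoA : ∀ x, oA x = ρA x % 2) (hoB : ∀ x, oB x = ρB x % 2)
    (hρA : ∀ x, ρA (hA x) = ρA x / 2) (hρB : ∀ x, ρB (hB x) = ρB x / 2)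
    (hA0 : ∀ x, ρA x = 0 → hA x = x) (hB0 : ∀ x, ρB x = 0 → hB x = x)
    (woA : ∀ x : Fin n, w[n * n + (x.val + 1)]?.getD 0 = oA x)
    (woB : ∀ x : Fin n, w[(n * n + n + 1 + n + 1) + n * n + (x.val + 1)]?.getD 0 = oB x)
    (whA : ∀ x : Fin n, w[n * n + n + 1 + (x.val + 1)]?.getD 0 = (hA x).val + 1)
    (whB : ∀ x : Fin n, w[(n * n + n + 1 + n + 1) + (n * n + n + 1) + (x.val + 1)]?.getD 0 =
      (hB x).val + 1)
    (r : ℕ) (x y : Fin n) (hx : ρA x < 2 ^ r) (hy : ρB y < 2 ^ r) :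
    ∃ s ≤ 23 * r + 20, ∀ R, KInv n M (x.val + 1) (y.val + 1) R →
      Bd kProg w M ⟨11, R⟩ (decide (ρA x = ρB y)) s := by
  induction r generalizing x y with
  | zero =>
    refine ⟨20, by omega, fun R hR => ?_⟩
    have hx0 : ρA x = 0 := by simpa using hx
    have hy0 : ρB y = 0 := by simpa using hy
    have key := kProg_loop hR (by omega) (by omega) (by rw [hoA]; omega) (by rw [hoB]; omega)
      (by omega) (by omega) hM (woA x) (woB y) (whA x) (whB y)
    have := key.2.1 (by rw [hoA, hoB, hx0, hy0]) (by rw [hA0 x hx0]) (by rw [hB0 y hy0])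
    simpa [hx0, hy0] using this
  | succ r ih =>
    have key := fun R (hR : KInv n M (x.val + 1) (y.val + 1) R) =>
      kProg_loop hR (by omega) (by omega) (by rw [hoA]; omega) (by rw [hoB]; omega)
      (by omega) (by omega) hM (woA x) (woB y) (whA x) (whB y)
    by_cases ho : oA x = oB y
    · by_cases hh : (hA x).val + 1 = x.val + 1 ∧ (hB y).val + 1 = y.val + 1
      · refine ⟨20, by omega, fun R hR => ?_⟩
        have h1 : hA x = x := Fin.ext (by omega)
        have h2 : hB y = y := Fin.ext (by omega)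
        have h3 := hρA x
        have h4 := hρB y
        rw [h1] at h3
        rw [h2] at h4
        have h5 : ρA x = ρB y := by omega
        have := (key R hR).2.1 ho hh.1 hh.2
        simpa [h5] using this
      · obtain ⟨s, hs, hall⟩ := ih (hA x) (hB y)
          (by rw [hρA]; rw [pow_succ] at hx; omega) (by rw [hρB]; rw [pow_succ] at hy; omega)
        refine ⟨s + 23, by omega, fun R hR => ?_⟩
        have hdec : decide (ρA x = ρB y) = decide (ρA (hA x) = ρB (hB y)) := by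
          rw [decide_eq_decide, hρA, hρB]
          rw [hoA, hoB] at ho
          omega
        rw [hdec]
        exact (key R hR).2.2 ho hh _ _ hall
    · refine ⟨8, by omega, fun R hR => ?_⟩
      have h5 : ρA x ≠ ρB y := by
        intro h
        apply ho
        rw [hoA, hoB, h]
      have := (key R hR).1 ho
      simpa [h5] using this

/-- The program `kProg` from the start. -/
theorem kProg_run {w : List ℕ} {n M : ℕ} {oA oB ρA ρB : Fin n → ℕ} {hA hB : Fin n → Fin n}
    (hM : 2 * (n * n) + 4 * n + 4 ≤ M)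
    (hoA : ∀ x, oA x = ρA x % 2) (hoB : ∀ x, oB x = ρB x % 2)
    (hρA : ∀ x, ρA (hA x) = ρA x / 2) (hρB : ∀ x, ρB (hB x) = ρB x / 2)
    (hA0 : ∀ x, ρA x = 0 → hA x = x) (hB0 : ∀ x, ρB x = 0 → hB x = x)
    (w0 : w[0]?.getD 0 = n)
    (woA : ∀ x : Fin n, w[n * n + (x.val + 1)]?.getD 0 = oA x)
    (woB : ∀ x : Fin n, w[(n * n + n + 1 + n + 1) + n * n + (x.val + 1)]?.getD 0 = oB x)
    (whA : ∀ x : Fin n, w[n * n + n + 1 + (x.val + 1)]?.getD 0 = (hA x).val + 1)
    (whB : ∀ x : Fin n, w[(n * n + n + 1 + n + 1) + (n * n + n + 1) + (x.val + 1)]?.getD 0 =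
      (hB x).val + 1)
    (x y : Fin n) (wcA : w[n * n + n + 1]?.getD 0 = x.val + 1)
    (wcB : w[(n * n + n + 1 + n + 1) + (n * n + n + 1)]?.getD 0 = y.val + 1)
    (r : ℕ) (hx : ρA x < 2 ^ r) (hy : ρB y < 2 ^ r) :
    ∃ s ≤ 23 * r + 31, Bd kProg w M ⟨0, fun _ => 0⟩ (decide (ρA x = ρB y)) s := by
  obtain ⟨s, hs, hall⟩ := kProg_digits hM hoA hoB hρA hρB hA0 hB0 woA woB whA whB r x y hx hy
  refine ⟨s + 11, by omega, ?_⟩
  have hx := x.isLt
  have hy := y.isLt
  have hle : ∀ x, (fun _ => 0 : ℕ → ℕ) x ≤ M := fun _ => Nat.zero_le _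
  refine bd_read 0 n rfl hle rfl w0 (by omega) fun hle => ?_
  refine bd_mul (n * n) rfl hle (by simp) (by omega) fun hle => ?_
  refine bd_const 1 rfl hle rfl (by omega) fun hle => ?_
  refine bd_add (n * n + n) rfl hle (by simp) (by omega) fun hle => ?_
  refine bd_add (n * n + n + 1) rfl hle (by simp) (by omega) fun hle => ?_
  refine bd_add (n * n + n + 1 + n) rfl hle (by simp) (by omega) fun hle => ?_
  refine bd_add (n * n + n + 1 + n + 1) rfl hle (by simp) (by omega) fun hle => ?_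
  refine bd_add (n * n + n + 1 + n + 1 + n * n) rfl hle (by simp) (by omega) fun hle => ?_
  refine bd_add (n * n + n + 1 + n + 1 + (n * n + n + 1)) rfl hle (by simp) (by omega)
    fun hle => ?_
  refine bd_read (n * n + n + 1) (x.val + 1) rfl hle (by simp) wcA (by omega) fun hle => ?_
  refine bd_read (n * n + n + 1 + n + 1 + (n * n + n + 1)) (y.val + 1) rfl hle (by simp) wcB
    (by omega) fun hle => ?_
  refine hall _ ⟨hle, ?_, ?_, ?_, ?_, ?_, ?_, ?_⟩ <;> simp

/-- The values of the registers at the head of the loop of `jProg`. -/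
structure JInv (n M i a b : ℕ) (R : ℕ → ℕ) : Prop where
  le : ∀ x, R x ≤ M
  h0 : R 0 = 0
  h1 : R 1 = i
  h2 : R 2 = 1
  h3 : R 3 = n + 1
  h4 : R 4 = a
  h5 : R 5 = b

theorem jProg_loop {w : List ℕ} {n M : ℕ} {pA pB : ℕ → ℕ} (hM : 2 * n + 2 ≤ M)
    (hA1 : ∀ i, pA i ≤ 1) (hB1 : ∀ i, pB i ≤ 1)
    (wA : ∀ i < n, w[i + 1]?.getD 0 = pA i) (wB : ∀ i < n, w[n + 1 + (i + 1)]?.getD 0 = pB i)
    (i a b : ℕ) (hi : i ≤ n) (ha : a + i ≤ n) (hb : b + i ≤ n) (R : ℕ → ℕ)
    (hR : JInv n M i a b R) :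
    Bd jProg w M ⟨3, R⟩ (decide (a + ∑ j ∈ Finset.range i, pA j =
      b + ∑ j ∈ Finset.range i, pB j)) (8 * i + 5) := by
  induction i generalizing a b R with
  | zero =>
    obtain ⟨hle, h0, h1, h2, h3, h4, h5⟩ := hR
    refine bd_jump rfl hle h1 ?_
    refine bd_sub (a - b) rfl hle (by rw [h4, h5]) (by omega) fun hle => ?_
    refine bd_sub (b - a) rfl hle (by simp [h4, h5]) (by omega) fun hle => ?_
    refine bd_add ((a - b) + (b - a)) rfl hle (by simp) (by omega) fun hle => ?_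
    by_cases h : a = b
    · refine bd_jump rfl hle (by simp [h]) ?_
      refine bd_halt ?_
      simp only [Finset.range_zero, Finset.sum_empty, add_zero, h, decide_true]
      rfl
    · refine bd_stay rfl hle (by simp; omega) ?_
      refine bd_halt ?_
      simp only [Finset.range_zero, Finset.sum_empty, add_zero, h, decide_false]
      rfl
  | succ i ih =>
    obtain ⟨hle, h0, h1, h2, h3, h4, h5⟩ := hR
    have hAi := hA1 i
    have hBi := hB1 i
    refine bd_stay rfl hle (by rw [h1]; omega) ?_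
    refine bd_read (i + 1) (pA i) rfl hle h1 (wA i (by omega)) (by omega) fun hle => ?_
    refine bd_add (a + pA i) rfl hle (by simp [h4]) (by omega) fun hle => ?_
    refine bd_add (n + 1 + (i + 1)) rfl hle (by simp [h3, h1]) (by omega) fun hle => ?_
    refine bd_read (n + 1 + (i + 1)) (pB i) rfl hle (by simp) (wB i (by omega)) (by omega)
      fun hle => ?_
    refine bd_add (b + pB i) rfl hle (by simp [h5]) (by omega) fun hle => ?_
    refine bd_sub i rfl hle (by simp [h1, h2]) (by omega) fun hle => ?_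
    refine bd_jump rfl hle (by simp [h0]) ?_
    have := ih (a + pA i) (b + pB i) (by omega) (by omega) (by omega) _
      ⟨hle, by simp [h0], by simp, by simp [h2], by simp [h3], by simp, by simp⟩
    rw [Finset.sum_range_succ, Finset.sum_range_succ]
    have e1 : a + (∑ j ∈ Finset.range i, pA j + pA i) = a + pA i + ∑ j ∈ Finset.range i, pA j := by
      ring
    have e2 : b + (∑ j ∈ Finset.range i, pB j + pB i) = b + pB i + ∑ j ∈ Finset.range i, pB j := by
      ring
    rw [e1, e2]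
    exact this

theorem jProg_run {w : List ℕ} {n M : ℕ} {pA pB : ℕ → ℕ} (hM : 2 * n + 2 ≤ M)
    (hA1 : ∀ i, pA i ≤ 1) (hB1 : ∀ i, pB i ≤ 1) (w0 : w[0]?.getD 0 = n)
    (wA : ∀ i < n, w[i + 1]?.getD 0 = pA i) (wB : ∀ i < n, w[n + 1 + (i + 1)]?.getD 0 = pB i) :
    Bd jProg w M ⟨0, fun _ => 0⟩ (decide (∑ j ∈ Finset.range n, pA j =
      ∑ j ∈ Finset.range n, pB j)) (8 * n + 8) := by
  have hle : ∀ x, (fun _ => 0 : ℕ → ℕ) x ≤ M := fun _ => Nat.zero_le _
  refine bd_read 0 n rfl hle rfl w0 (by omega) fun hle => ?_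
  refine bd_const 1 rfl hle rfl (by omega) fun hle => ?_
  refine bd_add (n + 1) rfl hle (by simp) (by omega) fun hle => ?_
  have := jProg_loop hM hA1 hB1 wA wB n 0 0 le_rfl (by omega) (by omega) _
    ⟨hle, by simp, by simp, by simp, by simp, by simp, by simp⟩
  simpa using this

end Pool.Agent.H82.RA
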