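import Pool.Agent.H82.RA.Time
import Pool.Agent.H82.RA.Prog

set_option autoImplicit false

namespace Pool.Agent.H82.RA

open Filter

theorem K_bd {n : ℕ} (A B : Str sigK n) (hA : K.Mem A) (hB : K.Mem B) :
    ∃ s ≤ 23 * n.size + 31, Bd kProg (pairCode A B) (2 * (n * n) + 4 * n + 4) ⟨0, fun _ => 0⟩
      (decide (rank A (con A) = rank B (con B))) s := by
  classical
  obtain ⟨a1, a2, a3, a4⟩ := look_K A (code B)
  obtain ⟨b1, b2, b3, b4⟩ := look_K B []
  have hlt : n < 2 ^ n.size := Nat.lt_size_self n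
  refine kProg_run (w := pairCode A B) (oA := fun x => if odd A x then 1 else 0)
    (oB := fun x => if odd B x then 1 else 0) (ρA := rank A) (ρB := rank B) (hA := half A)
    (hB := half B) le_rfl ?_ ?_ (rank_half hA) (rank_half hB) (half_of_rank_zero hA)
    (half_of_rank_zero hB) a1 a2 ?_ a4 ?_ (con A) (con B) a3 ?_ n.size
    ((rank_lt hA _).trans hlt) ((rank_lt hB _).trans hlt)
  · intro x
    have := odd_iff hA x
    by_cases h : odd A x
    · rw [if_pos h]
      exact (this.1 h).symm
    · rw [if_neg h]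
      rw [this] at h
      omega
  · intro x
    have := odd_iff hB x
    by_cases h : odd B x
    · rw [if_pos h]
      exact (this.1 h).symm
    · rw [if_neg h]
      rw [this] at h
      omega
  · intro x
    rw [add_assoc]
    exact (look_right _ _ _ _ (length_code_K A)).trans (b2 x)
  · intro x
    rw [add_assoc]
    exact (look_right _ _ _ _ (length_code_K A)).trans (b4 x)
  · exact (look_right _ _ _ _ (length_code_K A)).trans b3

theorem num_eq {n : ℕ} (A : Str sigJ n) (g : ℕ → ℕ) (hg1 : ∀ x : Fin n, pred A x → g x.val = 1)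
    (hg0 : ∀ x : Fin n, ¬ pred A x → g x.val = 0) : ∑ j ∈ Finset.range n, g j = num A := by
  classical
  rw [← Fin.sum_univ_eq_sum_range]
  unfold num
  rw [Finset.card_filter]
  refine Finset.sum_congr rfl fun x _ => ?_
  by_cases h : pred A x
  · rw [if_pos h, hg1 x h]
  · rw [if_neg h, hg0 x h]

theorem J_bd {n : ℕ} (A B : Str sigJ n) :
    Bd jProg (pairCode A B) (2 * n + 2) ⟨0, fun _ => 0⟩ (decide (num A = num B)) (8 * n + 8) := by
  classical
  obtain ⟨a1, a2⟩ := look_J A (code B)
  obtain ⟨b1, b2⟩ := look_J B []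
  let g : Str sigJ n → ℕ → ℕ := fun A i =>
    if h : i < n then (if pred A ⟨i, h⟩ then 1 else 0) else 0
  have hg1 : ∀ A i, g A i ≤ 1 := by
    intro A i
    simp only [g]
    split_ifs <;> omega
  have hsum : ∀ A, ∑ j ∈ Finset.range n, g A j = num A := by
    intro A
    refine num_eq A (g A) ?_ ?_
    · intro x hx
      simp only [g]
      rw [dif_pos x.isLt, if_pos hx]
    · intro x hx
      simp only [g]
      rw [dif_pos x.isLt, if_neg hx]
  have := jProg_run (w := pairCode A B) (n := n) (M := 2 * n + 2) (pA := g A) (pB := g B) le_rfl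
    (hg1 A) (hg1 B) a1 (by
      intro i hi
      simp only [g]
      rw [dif_pos hi]
      exact a2 ⟨i, hi⟩) (by
      intro i hi
      simp only [g]
      rw [dif_pos hi]
      exact (look_right _ _ _ _ (length_code_J A)).trans (b2 ⟨i, hi⟩))
  rw [hsum, hsum] at this
  exact this

theorem length_pairCode_K {n : ℕ} (A B : Str sigK n) :
    (pairCode A B).length = 2 * (n * n) + 4 * n + 4 := by
  unfold pairCode
  rw [List.length_append, length_code_K, length_code_K]
  ring

theorem length_pairCode_J {n : ℕ} (A B : Str sigJ n) : (pairCode A B).length = 2 * n + 2 := by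
  unfold pairCode
  rw [List.length_append, length_code_J, length_code_J]
  ring

theorem K_test {κ : CostFn} (hκ : Admissible κ) : IsTest (ram κ) K kProg := by
  intro n A B hA hB
  obtain ⟨D, hD⟩ := hκ.le kProg
  obtain ⟨s, _, hs⟩ := K_bd A B hA hB
  obtain ⟨t, _, hrun⟩ := hs.run (κ := κ) _ (fun c hc => hD (pairCode A B) c _ (by omega)
    (length_pairCode_K A B).le (fun x hx => (mem_pairCode_le A B hx).trans (by nlinarith)) hc)
  refine ⟨_, t, hrun, ?_⟩
  rw [decide_eq_true_iff]
  exact (isoK_iff_rank hA hB).symm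

theorem J_test {κ : CostFn} (hκ : Admissible κ) : IsTest (ram κ) J jProg := by
  intro n A B _ _
  obtain ⟨D, hD⟩ := hκ.le jProg
  obtain ⟨t, _, hrun⟩ := (J_bd A B).run (κ := κ) _ (fun c hc => hD (pairCode A B) c _ (by omega)
    (length_pairCode_J A B).le (fun x hx => (mem_pairCode_le A B hx).trans (by omega)) hc)
  refine ⟨_, t, hrun, ?_⟩
  rw [decide_eq_true_iff]
  exact (isoJ_iff_num A B).symm

theorem log_pos {n : ℕ} (hn : 2 ≤ n) : 1 ≤ Nat.log 2 n := Nat.log_pos (by norm_num) hn

theorem lt_two_pow_log (n : ℕ) : n < 2 ^ (Nat.log 2 n + 1) := Nat.lt_pow_succ_log_self (by norm_num) n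

/-- Testing isomorphism in `K` takes polylogarithmic time. -/
theorem K_upper {κ : CostFn} (hκ : Admissible κ) :
    ∃ C : ℕ, ∀ n, 2 ≤ n → maxTime (ram κ) K kProg n ≤ C * Nat.log 2 n ^ C := by
  obtain ⟨D, hD⟩ := hκ.le kProg
  refine ⟨77 * D * 7 ^ D + D + 1, fun n hn => ?_⟩
  have h1 := maxTime_le (κ := κ) K kProg n (23 * n.size + 31) (2 * (n * n) + 4 * n + 4) D
    (by omega) hD (fun A B hA hB => ⟨(length_pairCode_K A B).le,
      fun x hx => (mem_pairCode_le A B hx).trans (by nlinarith), _, K_bd A B hA hB⟩)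
  obtain ⟨l, hl⟩ : ∃ l, l = Nat.log 2 n := ⟨_, rfl⟩
  have hl1 : 1 ≤ l := hl ▸ log_pos hn
  have hlt : n < 2 ^ (l + 1) := hl ▸ lt_two_pow_log n
  have hsize : n.size ≤ l + 1 := Nat.size_le.2 hlt
  have hM : Nat.log 2 (2 * (n * n) + 4 * n + 4) ≤ 7 * l := by
    have h2 : n * n < 2 ^ (l + 1) * 2 ^ (l + 1) := Nat.mul_lt_mul'' hlt hlt
    have h3 : 2 * (n * n) + 4 * n + 4 ≤ 8 * (n * n) := by nlinarith
    have h4 : 2 * (n * n) + 4 * n + 4 < 2 ^ (2 * l + 5) := by
      have : 2 ^ (2 * l + 5) = 8 * (2 ^ (l + 1) * 2 ^ (l + 1)) := by ring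
      omega
    have h5 := Nat.log_lt_of_lt_pow (by omega) h4
    omega
  rw [← hl]
  calc maxTime (ram κ) K kProg n
      ≤ (23 * n.size + 31) * (D * Nat.log 2 (2 * (n * n) + 4 * n + 4) ^ D) := h1
    _ ≤ (77 * l) * (D * (7 * l) ^ D) := by
        refine Nat.mul_le_mul (by omega) (Nat.mul_le_mul_left D (Nat.pow_le_pow_left hM D))
    _ = (77 * D * 7 ^ D) * l ^ (D + 1) := by
        rw [mul_pow]
        ring
    _ ≤ (77 * D * 7 ^ D + D + 1) * l ^ (77 * D * 7 ^ D + D + 1) := by
        refine Nat.mul_le_mul (by omega) (Nat.pow_le_pow_right hl1 (by omega))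

/-- The time of the test for `J`. -/
theorem J_upper {κ : CostFn} (hκ : Admissible κ) :
    ∃ C : ℕ, ∀ n, 2 ≤ n → maxTime (ram κ) J jProg n ≤ C * n * Nat.log 2 n ^ C := by
  obtain ⟨D, hD⟩ := hκ.le jProg
  refine ⟨12 * D * 3 ^ D + D, fun n hn => ?_⟩
  have h1 := maxTime_le (κ := κ) J jProg n (8 * n + 8) (2 * n + 2) D
    (by omega) hD (fun A B hA hB => ⟨(length_pairCode_J A B).le,
      fun x hx => (mem_pairCode_le A B hx).trans (by omega), _, _, le_rfl, J_bd A B⟩)
  obtain ⟨l, hl⟩ : ∃ l, l = Nat.log 2 n := ⟨_, rfl⟩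
  have hl1 : 1 ≤ l := hl ▸ log_pos hn
  have hlt : n < 2 ^ (l + 1) := hl ▸ lt_two_pow_log n
  have hM : Nat.log 2 (2 * n + 2) ≤ 3 * l := by
    have h4 : 2 * n + 2 < 2 ^ (l + 3) := by
      have : 2 ^ (l + 3) = 4 * 2 ^ (l + 1) := by ring
      omega
    have h5 := Nat.log_lt_of_lt_pow (by omega) h4
    omega
  rw [← hl]
  calc maxTime (ram κ) J jProg n
      ≤ (8 * n + 8) * (D * Nat.log 2 (2 * n + 2) ^ D) := h1
    _ ≤ (12 * n) * (D * (3 * l) ^ D) := by
        refine Nat.mul_le_mul (by omega) (Nat.mul_le_mul_left D (Nat.pow_le_pow_left hM D))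
    _ = (12 * D * 3 ^ D) * n * l ^ D := by
        rw [mul_pow]
        ring
    _ ≤ (12 * D * 3 ^ D + D) * n * l ^ (12 * D * 3 ^ D + D) := by
        refine Nat.mul_le_mul (Nat.mul_le_mul_right n (by omega))
          (Nat.pow_le_pow_right hl1 (by omega))

/-! ### The conclusion of the assertion fails -/

theorem poly_bound (p : Polynomial ℝ) : ∃ a : ℝ, 0 ≤ a ∧ ∀ x : ℝ, 0 ≤ x →
    p.eval x ≤ a * (1 + x) ^ p.natDegree := by
  refine ⟨∑ i ∈ Finset.range (p.natDegree + 1), |p.coeff i|,
    Finset.sum_nonneg fun i _ => abs_nonneg _, fun x hx => ?_⟩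
  rw [Polynomial.eval_eq_sum_range, Finset.sum_mul]
  refine Finset.sum_le_sum fun i hi => ?_
  have hi' : i ≤ p.natDegree := by
    have := Finset.mem_range.1 hi
    omega
  calc p.coeff i * x ^ i ≤ |p.coeff i| * x ^ i :=
        mul_le_mul_of_nonneg_right (le_abs_self _) (pow_nonneg hx i)
    _ ≤ |p.coeff i| * (1 + x) ^ p.natDegree := by
        refine mul_le_mul_of_nonneg_left ?_ (abs_nonneg _)
        calc x ^ i ≤ (1 + x) ^ i := pow_le_pow_left₀ hx (by linarith) i
          _ ≤ (1 + x) ^ p.natDegree := pow_le_pow_right₀ (by linarith) hi'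

theorem tendsto_log : Tendsto (fun n : ℕ => Nat.log 2 n) atTop atTop := by
  rw [tendsto_atTop]
  intro b
  filter_upwards [eventually_ge_atTop (2 ^ b)] with n hn
  exact Nat.le_log_of_pow_le (by norm_num) hn

/-- The conclusion of Q1 fails for `J` and every class with a polylogarithmic time test. -/
theorem not_conclusion_of {κ : CostFn} (hκ : Admissible κ) {L : FOClass} {α : List Instr}
    (hα : IsTest (ram κ) L α)
    (hpl : ∃ C : ℕ, ∀ n, 2 ≤ n → maxTime (ram κ) L α n ≤ C * Nat.log 2 n ^ C) :
    ¬ Conclusion (ram κ) J L := by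
  rintro ⟨p, hp⟩
  obtain ⟨β, hβ, hev⟩ := hp α hα
  obtain ⟨C, hC⟩ := hpl
  obtain ⟨a, ha, hpa⟩ := poly_bound p
  have hlim : Tendsto (fun l : ℕ => (l : ℝ) ^ (C * p.natDegree) / 2 ^ l) atTop (nhds 0) :=
    tendsto_pow_const_div_const_pow_of_one_lt (C * p.natDegree) (by norm_num)
  obtain ⟨E, hE⟩ : ∃ E : ℝ, E = a * (1 + C) ^ p.natDegree := ⟨_, rfl⟩
  have hE0 : 0 ≤ E := by rw [hE]; positivity
  have hlim2 := (hlim.eventually (gt_mem_nhds (show (0 : ℝ) < 1 / (2 * (E + 1)) by positivity)))
  obtain ⟨n, h1, h2, h3⟩ := (hev.and ((tendsto_log.eventually hlim2).and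
    (eventually_ge_atTop 3))).exists
  have h4 := J_lower hκ.pos β hβ n
  have h5 := hC n (by omega)
  obtain ⟨l, hl⟩ : ∃ l, l = Nat.log 2 n := ⟨_, rfl⟩
  rw [← hl] at h2 h5
  have hl1 : 1 ≤ l := hl ▸ log_pos (by omega)
  have hl1' : (1 : ℝ) ≤ l := by exact_mod_cast hl1
  have hpow : 2 ^ l ≤ n := by
    rw [hl]
    exact Nat.pow_log_le_self 2 (by omega)
  have hpow' : (2 : ℝ) ^ l ≤ n := by exact_mod_cast hpow
  obtain ⟨m, hm⟩ : ∃ m, m = maxTime (ram κ) L α n := ⟨_, rfl⟩
  rw [← hm] at h5
  have hm' : (maxTime (ram κ) L α n : ℝ) = m := by rw [hm]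
  rw [hm'] at h1
  have h5' : (m : ℝ) ≤ C * (l : ℝ) ^ C := by exact_mod_cast h5
  have h6 := hpa m (Nat.cast_nonneg m)
  have hlC : (1 : ℝ) ≤ (l : ℝ) ^ C := one_le_pow₀ hl1'
  have h7 : a * (1 + (m : ℝ)) ^ p.natDegree ≤ E * (l : ℝ) ^ (C * p.natDegree) := by
    rw [hE, pow_mul, mul_assoc, ← mul_pow]
    refine mul_le_mul_of_nonneg_left (pow_le_pow_left₀ (by positivity) ?_ _) ha
    nlinarith
  have h8 : (l : ℝ) ^ (C * p.natDegree) < 1 / (2 * (E + 1)) * 2 ^ l := by
    rwa [div_lt_iff₀ (by positivity)] at h2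
  have h9 : E * (l : ℝ) ^ (C * p.natDegree) ≤ (2 : ℝ) ^ l / 2 := by
    calc E * (l : ℝ) ^ (C * p.natDegree) ≤ (E + 1) * (1 / (2 * (E + 1)) * 2 ^ l) :=
          mul_le_mul (by linarith) h8.le (by positivity) (by positivity)
      _ = (2 : ℝ) ^ l / 2 := by field_simp
  have h4' : (n : ℝ) ≤ maxTime (ram κ) J β n + 1 := by exact_mod_cast h4
  have h3' : (3 : ℝ) ≤ n := by exact_mod_cast h3
  linarith

theorem not_conclusion {κ : CostFn} (hκ : Admissible κ) : ¬ Conclusion (ram κ) J K :=
  not_conclusion_of hκ (K_test hκ) (K_upper hκ)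

/-! ### Unit cost and logarithmic cost -/

theorem admissible_unit : Admissible unitCost where
  pos _ _ _ := le_rfl
  le P := ⟨1, fun w c M hM _ _ _ => by
    have := log_pos hM
    simpa [unitCost] using this⟩

/-- The number of binary digits of the numbers occurring in an instruction. -/
def isize : Instr → ℕ
  | .const i v => i.size + v.size
  | .add i j k => i.size + j.size + k.size
  | .sub i j k => i.size + j.size + k.size
  | .mul i j k => i.size + j.size + k.size
  | .div i j k => i.size + j.size + k.size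
  | .load i j => i.size + j.size
  | .store i j => i.size + j.size
  | .len i => i.size
  | .read i j => i.size + j.size
  | .jump i l => i.size + l.size
  | .halt _ => 0

theorem admissible_log : Admissible logCost where
  pos P w c := by
    unfold logCost
    split <;> omega
  le P := by
    refine ⟨(P.map isize).sum + 5, fun w c M hM hw hwx hR => ?_⟩
    obtain ⟨l, hl⟩ : ∃ l, l = Nat.log 2 M := ⟨_, rfl⟩
    have hl1 : 1 ≤ l := hl ▸ log_pos hM
    have hsz : ∀ x, x ≤ M → x.size ≤ l + 1 := fun x hx =>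
      Nat.size_le.2 (lt_of_le_of_lt hx (hl ▸ lt_two_pow_log M))
    have hget : ∀ i : ℕ, w[i]?.getD 0 ≤ M := by
      intro i
      cases h : w[i]? with
      | none => simp
      | some x =>
        obtain ⟨hi, rfl⟩ := List.getElem?_eq_some_iff.1 h
        simpa using hwx _ (List.getElem_mem hi)
    have hmem : ∀ I, P[c.pc]? = some I → isize I ≤ (P.map isize).sum := by
      intro I hI
      obtain ⟨hi, rfl⟩ := List.getElem?_eq_some_iff.1 hI
      exact List.single_le_sum (by simp) _ (List.mem_map_of_mem (List.getElem_mem hi))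
    have hcost : logCost P w c ≤ (P.map isize).sum + 2 * (l + 1) + 1 := by
      unfold logCost
      split
      · omega
      · rename_i i v h
        have := hmem _ h
        simp only [isize] at this
        omega
      · rename_i i j k h
        have := hmem _ h
        simp only [isize] at this
        have := hsz _ (hR j)
        have := hsz _ (hR k)
        omega
      · rename_i i j k h
        have := hmem _ h
        simp only [isize] at this
        have := hsz _ (hR j)
        have := hsz _ (hR k)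
        omega
      · rename_i i j k h
        have := hmem _ h
        simp only [isize] at this
        have := hsz _ (hR j)
        have := hsz _ (hR k)
        omega
      · rename_i i j k h
        have := hmem _ h
        simp only [isize] at this
        have := hsz _ (hR j)
        have := hsz _ (hR k)
        omega
      · rename_i i j h
        have := hmem _ h
        simp only [isize] at this
        have := hsz _ (hR j)
        have := hsz _ (hR (c.R j))
        omega
      · rename_i i j h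
        have := hmem _ h
        simp only [isize] at this
        have := hsz _ (hR i)
        have := hsz _ (hR j)
        omega
      · rename_i i h
        have := hmem _ h
        simp only [isize] at this
        have := hsz _ hw
        omega
      · rename_i i j h
        have := hmem _ h
        simp only [isize] at this
        have := hsz _ (hR j)
        have := hsz _ (hget (c.R j))
        omega
      · rename_i i k h
        have := hmem _ h
        simp only [isize] at this
        have := hsz _ (hR i)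
        omega
      · omega
    rw [← hl]
    obtain ⟨S, hS⟩ : ∃ S, S = (P.map isize).sum := ⟨_, rfl⟩
    rw [← hS] at hcost ⊢
    calc logCost P w c ≤ S + 2 * (l + 1) + 1 := hcost
      _ ≤ (S + 5) * l := by nlinarith
      _ ≤ (S + 5) * l ^ (S + 5) := Nat.mul_le_mul_left _ (Nat.le_self_pow (by omega) l)

end Pool.Agent.H82.RA
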