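import Pool.Agent.H82.RA.ArProg
import Pool.Agent.H82.RA.Upper

set_option autoImplicit false

namespace Pool.Agent.H82.RA

theorem A_test {κ : CostFn} (hκ : Admissible κ) (k : ℕ) : IsTest (ram κ) (Ar k) aProg := by
  intro n A B hA hB
  obtain ⟨D, hD⟩ := hκ.le aProg
  obtain ⟨b, s, _, hb, hs⟩ := A_bd hA hB
  obtain ⟨t, _, hrun⟩ := hs.run (κ := κ) _ (fun c hc => hD (pairCode A B) c _ (by omega)
    (length_pairCode_A A B).le (fun x hx => (mem_pairCode_le A B hx).trans (by nlinarith)) hc)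
  exact ⟨b, t, hrun, hb⟩

/-- Testing isomorphism in `Ar k` takes polylogarithmic time. -/
theorem A_upper {κ : CostFn} (hκ : Admissible κ) (k : ℕ) :
    ∃ C : ℕ, ∀ n, 2 ≤ n → maxTime (ram κ) (Ar k) aProg n ≤ C * Nat.log 2 n ^ C := by
  obtain ⟨D, hD⟩ := hκ.le aProg
  refine ⟨(17 * 2 ^ k + 32) * D * 7 ^ D + k + D, fun n hn => ?_⟩
  have h1 := maxTime_le (κ := κ) (Ar k) aProg n (17 * tnum k n + 32) (6 * (n * n) + 6 * n + 10) D
    (by omega) hD (fun A B hA hB => ⟨(length_pairCode_A A B).le,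
      fun x hx => (mem_pairCode_le A B hx).trans (by nlinarith), by
        obtain ⟨b, s, hs, _, hbd⟩ := A_bd hA hB
        exact ⟨b, s, hs, hbd⟩⟩)
  obtain ⟨l, hl⟩ : ∃ l, l = Nat.log 2 n := ⟨_, rfl⟩
  have hl1 : 1 ≤ l := hl ▸ log_pos hn
  have hlt : n < 2 ^ (l + 1) := hl ▸ lt_two_pow_log n
  have hln : lnum n ≤ 2 * l := by
    have h2 : lnum n ≤ l + 1 := by
      unfold lnum
      rw [Nat.clog_le_iff_le_pow (by norm_num)]
      omega
    omega
  have htn : 17 * tnum k n + 32 ≤ (17 * 2 ^ k + 32) * l ^ k := by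
    have h2 : tnum k n ≤ 2 ^ k * l ^ k := by
      unfold tnum
      rw [← mul_pow]
      exact (min_le_left _ _).trans (Nat.pow_le_pow_left hln k)
    have h3 : 1 ≤ l ^ k := Nat.one_le_pow _ _ hl1
    nlinarith
  have hM : Nat.log 2 (6 * (n * n) + 6 * n + 10) ≤ 7 * l := by
    have h2 : n * n < 2 ^ (l + 1) * 2 ^ (l + 1) := Nat.mul_lt_mul'' hlt hlt
    have h3 : 6 * (n * n) + 6 * n + 10 ≤ 16 * (n * n) := by nlinarith
    have h4 : 6 * (n * n) + 6 * n + 10 < 2 ^ (2 * l + 6) := by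
      have : 2 ^ (2 * l + 6) = 16 * (2 ^ (l + 1) * 2 ^ (l + 1)) := by ring
      omega
    have h5 := Nat.log_lt_of_lt_pow (by omega) h4
    omega
  rw [← hl]
  calc maxTime (ram κ) (Ar k) aProg n
      ≤ (17 * tnum k n + 32) * (D * Nat.log 2 (6 * (n * n) + 6 * n + 10) ^ D) := h1
    _ ≤ ((17 * 2 ^ k + 32) * l ^ k) * (D * (7 * l) ^ D) := by
        refine Nat.mul_le_mul htn (Nat.mul_le_mul_left D (Nat.pow_le_pow_left hM D))
    _ = ((17 * 2 ^ k + 32) * D * 7 ^ D) * l ^ (k + D) := by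
        rw [mul_pow, pow_add]
        ring
    _ ≤ ((17 * 2 ^ k + 32) * D * 7 ^ D + k + D) *
        l ^ ((17 * 2 ^ k + 32) * D * 7 ^ D + k + D) := by
        refine Nat.mul_le_mul (by omega) (Nat.pow_le_pow_right hl1 (by omega))

theorem not_conclusion_A {κ : CostFn} (hκ : Admissible κ) (k : ℕ) :
    ¬ Conclusion (ram κ) J (Ar k) := not_conclusion_of hκ (A_test hκ k) (A_upper hκ k)

theorem J_le_A {k : ℕ} (hk : k ≠ 0) (n : ℕ) : J.types n ≤ (Ar k).types n := by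
  rw [J_types]
  rcases Nat.eq_zero_or_pos n with h | h
  · omega
  · exact (le_two_pow_tnum hk h).trans (Ar_types_ge k n h)

end Pool.Agent.H82.RA
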