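import Pool.Agent.H82.RA.Defs

set_option autoImplicit false

namespace Pool.Agent.H82.RA

open Filter

/-- The signature with one unary relation symbol. -/
def sigJ : Sig := ⟨[1], []⟩

/-- The unary relation symbol. -/
def symP : sigJ.lang.Relations 1 := ⟨(0 : Fin 1), rfl⟩

open FirstOrder FirstOrder.Language in
/-- The class of all finite sets with a nonempty unary relation. -/
def J : FOClass where
  sig := sigJ
  ax := ∃' (symP.boundedFormula₁ (&0))

/-- The relation of a structure of signature `sigJ`. -/
def pred {n : ℕ} (A : Str sigJ n) (x : Fin n) : Prop := A.RelMap symP ![x]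

theorem mem_J {n : ℕ} (A : Str sigJ n) : J.Mem A ↔ ∃ x, pred A x := by
  simp only [FOClass.Mem, J, pred]
  simp [FirstOrder.Language.Sentence.Realize, FirstOrder.Language.Formula.Realize,
    FirstOrder.Language.BoundedFormula.realize_ex, Fin.snoc,
    FirstOrder.Language.BoundedFormula.realize_rel₁]

/-- The structure in which the relation holds exactly of the elements of `X`. -/
@[reducible] def mkP {n : ℕ} (X : Fin n → Prop) : Str sigJ n where
  funMap := fun f _ => Fin.elim0 (f : {_i : Fin 0 // _}).1
  RelMap := fun {k} _ x => ∃ i : Fin k, X (x i)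

theorem pred_mkP {n : ℕ} (X : Fin n → Prop) (x : Fin n) : pred (mkP X) x ↔ X x := by
  unfold pred mkP
  simp

theorem isoJ_iff {n : ℕ} (A B : Str sigJ n) :
    Iso A B ↔ ∃ e : Fin n ≃ Fin n, ∀ x, pred B (e x) ↔ pred A x := by
  constructor
  · rintro ⟨e⟩
    refine ⟨@FirstOrder.Language.Equiv.toEquiv _ _ _ A B e, fun x => ?_⟩
    have := @FirstOrder.Language.Equiv.map_rel' _ _ _ A B e _ symP ![x]
    unfold pred
    rw [← this]
    apply iff_of_eq
    congr 1
    ext i
    fin_cases i
    rfl
  · rintro ⟨e, he⟩
    refine ⟨@FirstOrder.Language.Equiv.mk _ _ _ A B e ?_ ?_⟩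
    · intro k f
      exact Fin.elim0 (f : {i : Fin 0 // _}).1
    · intro k r x
      obtain ⟨i, hi⟩ := r
      have hi0 : i = (0 : Fin 1) := Subsingleton.elim (α := Fin 1) _ _
      subst hi0
      have hk : k = 1 := hi.symm
      subst hk
      have := he (x 0)
      unfold pred at this
      have h1 : x = ![x 0] := by
        ext i; fin_cases i; rfl
      have h2 : (e.toFun ∘ x) = ![e (x 0)] := by
        ext i; fin_cases i; rfl
      rw [h2]
      rw [h1]
      exact this

open Classical in
/-- The number of elements of the relation. -/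
noncomputable def num {n : ℕ} (A : Str sigJ n) : ℕ := (Finset.univ.filter fun x => pred A x).card

theorem isoJ_iff_num {n : ℕ} (A B : Str sigJ n) : Iso A B ↔ num A = num B := by
  classical
  rw [isoJ_iff]
  constructor
  · rintro ⟨e, he⟩
    unfold num
    refine Finset.card_equiv e ?_
    intro z
    simp [he]
  · intro h
    have h1 : Fintype.card {x // pred A x} = Fintype.card {x // pred B x} := by
      rw [Fintype.card_subtype, Fintype.card_subtype]
      exact h
    let e : {x // pred A x} ≃ {x // pred B x} := Fintype.equivOfCardEq h1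
    refine ⟨e.extendSubtype, fun x => ?_⟩
    constructor
    · intro hx
      by_contra hn
      exact e.extendSubtype_not_mem x hn hx
    · intro hx
      exact e.extendSubtype_mem x hx

theorem num_le {n : ℕ} (A : Str sigJ n) : num A ≤ n := by
  classical
  have := Finset.card_le_univ (Finset.univ.filter fun x => pred A x)
  simpa [num] using this

theorem num_pos {n : ℕ} {A : Str sigJ n} (hA : J.Mem A) : 0 < num A := by
  classical
  obtain ⟨x, hx⟩ := (mem_J A).1 hA
  exact Finset.card_pos.2 ⟨x, by simpa using hx⟩

theorem J_types (n : ℕ) : J.types n = n := by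
  classical
  unfold FOClass.types
  let F : Quotient (J.isoSetoid n) → Fin n := Quotient.lift
    (fun A : {A : Str J.sig n // J.Mem A} => (⟨num A.1 - 1, by
      have h1 := num_le A.1
      have h2 := num_pos A.2
      omega⟩ : Fin n)) (by
      rintro ⟨A, hA⟩ ⟨B, hB⟩ h
      refine Fin.ext ?_
      show num A - 1 = num B - 1
      rw [(isoJ_iff_num A B).1 h])
  have hF : Function.Bijective F := by
    constructor
    · intro a b
      induction a using Quotient.inductionOn with | _ a =>
      induction b using Quotient.inductionOn with | _ b =>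
      obtain ⟨A, hA⟩ := a
      obtain ⟨B, hB⟩ := b
      intro h
      refine Quotient.sound ?_
      have h' : num A - 1 = num B - 1 := congrArg Fin.val h
      have h1 := num_pos hA
      have h2 := num_pos hB
      exact (isoJ_iff_num A B).2 (by omega)
    · intro c
      have hmem : J.Mem (mkP fun x : Fin n => x ≤ c) :=
        (mem_J _).2 ⟨c, (pred_mkP _ _).2 le_rfl⟩
      refine ⟨Quotient.mk _ ⟨mkP fun x : Fin n => x ≤ c, hmem⟩, ?_⟩
      refine Fin.ext ?_
      show num (mkP fun x : Fin n => x ≤ c) - 1 = c.val
      unfold num
      simp only [pred_mkP]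
      have : (Finset.univ.filter fun z : Fin n => z ≤ c) = Finset.Iic c := by
        ext z
        simp
      rw [this, Fin.card_Iic]
      rfl
  rw [Nat.card_congr (Equiv.ofBijective F hF)]
  simp

end Pool.Agent.H82.RA
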