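import Pool.Agent.H82.RA.Defs

set_option autoImplicit false

namespace Pool.Agent.H82.RA

open Filter

/-! ### The two classes -/

/-- The signature with one binary relation symbol, one unary relation symbol, one constant symbol
and one unary function symbol. -/
def sigK : Sig := ⟨[2, 1], [0, 1]⟩

/-- The binary relation symbol. -/
def symLt : sigK.lang.Relations 2 := ⟨(0 : Fin 2), rfl⟩

/-- The unary relation symbol. -/
def symOdd : sigK.lang.Relations 1 := ⟨(1 : Fin 2), rfl⟩

/-- The constant symbol. -/
def symC : sigK.lang.Functions 0 := ⟨(0 : Fin 2), rfl⟩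

/-- The unary function symbol. -/
def symH : sigK.lang.Functions 1 := ⟨(1 : Fin 2), rfl⟩

/-- Formulas of signature `sigK` whose free variables are numbered `0, ..., k - 1`. -/
abbrev Fm (k : ℕ) : Type := sigK.lang.BoundedFormula Empty k

/-- Terms of signature `sigK` whose variables are numbered `0, ..., k - 1`. -/
abbrev Tm (k : ℕ) : Type := sigK.lang.Term (Empty ⊕ Fin k)

/-- The variable with number `i`. -/
def tv {k : ℕ} (i : Fin k) : Tm k := FirstOrder.Language.Term.var (Sum.inr i)

/-- The term `h t`. -/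
def th {k : ℕ} (t : Tm k) : Tm k := symH.apply₁ t

/-- The formula `s < t`. -/
def fLt {k : ℕ} (s t : Tm k) : Fm k := symLt.boundedFormula₂ s t

/-- The formula `Odd t`. -/
def fOdd {k : ℕ} (t : Tm k) : Fm k := symOdd.boundedFormula₁ t

/-- The formula `s = t`. -/
def fEq {k : ℕ} (s t : Tm k) : Fm k := s.bdEqual t

/-- Negation. -/
def fNot {k : ℕ} (φ : Fm k) : Fm k := φ.not

/-- Implication. -/
def fImp {k : ℕ} (φ ψ : Fm k) : Fm k := φ.imp ψ

/-- Conjunction. -/
def fAnd {k : ℕ} (φ ψ : Fm k) : Fm k := φ ⊓ ψ

/-- Disjunction. -/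
def fOr {k : ℕ} (φ ψ : Fm k) : Fm k := φ ⊔ ψ

/-- Universal quantification of the last variable. -/
def fAll {k : ℕ} (φ : Fm (k + 1)) : Fm k := φ.all

/-- `<` is irreflexive: `∀ x, ¬ x < x`. -/
def axIrr : Fm 0 := fAll (fNot (fLt (tv (k := 1) 0) (tv 0)))

/-- `<` is transitive: `∀ x y z, x < y → y < z → x < z`. -/
def axTrans : Fm 0 :=
  fAll (fAll (fAll (fImp (fLt (tv (k := 3) 0) (tv 1)) (fImp (fLt (tv 1) (tv 2))
    (fLt (tv 0) (tv 2))))))

/-- `<` is total: `∀ x y, x < y ∨ x = y ∨ y < x`. -/
def axTotal : Fm 0 :=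
  fAll (fAll (fOr (fLt (tv (k := 2) 0) (tv 1)) (fOr (fEq (tv 0) (tv 1)) (fLt (tv 1) (tv 0)))))

/-- The least element: `∀ x, (∀ y, ¬ y < x) → ¬ Odd x ∧ h x = x`. -/
def axLeast : Fm 0 :=
  fAll (fImp (fAll (fNot (fLt (tv (k := 2) 1) (tv 0))))
    (fAnd (fNot (fOdd (tv (k := 1) 0))) (fEq (th (tv 0)) (tv 0))))

/-- `t` is the successor of `s`, where `s` and `t` are terms in the variables `0` and `1`, given
also as terms in the variables `0`, `1` and `2`: `s < t ∧ ∀ z, ¬ (s < z ∧ z < t)`. -/
def fSucc (s t : Tm 2) (s' t' : Tm 3) : Fm 2 :=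
  fAnd (fLt s t) (fAll (fNot (fAnd (fLt s' (tv 2)) (fLt (tv 2) t'))))

/-- If `y` is the successor of `x`, then: `Odd y` iff `¬ Odd x`; if `Odd x`, then `h y` is the
successor of `h x`; if `¬ Odd x`, then `h y = h x`. -/
def axSucc : Fm 0 :=
  fAll (fAll (fImp (fSucc (tv 0) (tv 1) (tv 0) (tv 1))
    (fAnd (fAnd (fImp (fOdd (tv (k := 2) 1)) (fNot (fOdd (tv 0))))
        (fImp (fNot (fOdd (tv 0))) (fOdd (tv 1))))
      (fAnd (fImp (fOdd (tv 0)) (fSucc (th (tv 0)) (th (tv 1)) (th (tv 0)) (th (tv 1))))
        (fImp (fNot (fOdd (tv 0))) (fEq (th (tv 1)) (th (tv 0))))))))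

/-- The class of all structures `(A, <, Odd, c, h)` where `<` is a linear order, `c` is any element,
and, the elements of `A` being numbered `0, 1, 2, ...` from below, `Odd` is the set of the elements
with odd number, and `h` takes the element with number `i` to the element with number `⌊i / 2⌋`. -/
def K : FOClass where
  sig := sigK
  ax := fAnd axIrr (fAnd axTrans (fAnd axTotal (fAnd axLeast axSucc)))

/-- The order of a structure of signature `sigK`. -/
def lt {n : ℕ} (A : Str sigK n) (x y : Fin n) : Prop := A.RelMap symLt ![x, y]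

/-- The unary relation of a structure of signature `sigK`. -/
def odd {n : ℕ} (A : Str sigK n) (x : Fin n) : Prop := A.RelMap symOdd ![x]

/-- The constant of a structure of signature `sigK`. -/
def con {n : ℕ} (A : Str sigK n) : Fin n := A.funMap symC ![]

/-- The unary function of a structure of signature `sigK`. -/
def half {n : ℕ} (A : Str sigK n) (x : Fin n) : Fin n := A.funMap symH ![x]

theorem mem_K {n : ℕ} (A : Str sigK n) : K.Mem A ↔
    (∀ x, ¬ lt A x x) ∧ (∀ x y z, lt A x y → lt A y z → lt A x z) ∧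
    (∀ x y, lt A x y ∨ x = y ∨ lt A y x) ∧
    (∀ x, (∀ y, ¬ lt A y x) → ¬ odd A x ∧ half A x = x) ∧
    (∀ x y, lt A x y → (∀ z, ¬ (lt A x z ∧ lt A z y)) →
      ((odd A y ↔ ¬ odd A x) ∧
      (odd A x → lt A (half A x) (half A y) ∧
        ∀ z, ¬ (lt A (half A x) z ∧ lt A z (half A y))) ∧
      (¬ odd A x → half A y = half A x))) := by
  simp only [FOClass.Mem, K, axIrr, axTrans, axTotal, axLeast, axSucc, fSucc, fAll, fAnd, fOr, fNot,
    fImp, fEq, fLt, fOdd, tv, th]
  simp only [lt, odd, half]
  simp [FirstOrder.Language.Sentence.Realize, FirstOrder.Language.Formula.Realize,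
    FirstOrder.Language.BoundedFormula.realize_all, Fin.snoc,
    FirstOrder.Language.BoundedFormula.realize_rel₁,
    FirstOrder.Language.BoundedFormula.realize_rel₂, FirstOrder.Language.Term.realize_functions_apply₁]
  intro _ _ _ _
  constructor
  · intro H x y h1 h2
    obtain ⟨⟨a, b⟩, c, d⟩ := H x y h1 h2
    exact ⟨⟨a, b⟩, c, d⟩
  · intro H x y h1 h2
    obtain ⟨⟨a, b⟩, c, d⟩ := H x y h1 h2
    exact ⟨⟨a, b⟩, c, d⟩

/-- Structures of signature `sigK` from their relations and functions. -/
@[reducible] def mkK {n : ℕ} (L : Fin n → Fin n → Prop) (O : Fin n → Prop) (c : Fin n)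
    (h : Fin n → Fin n) : Str sigK n where
  funMap := fun {k} f x => if hk : k = 1 then h (x ⟨0, by omega⟩) else c
  RelMap := fun {k} _ x => if hk : k = 2 then L (x ⟨0, by omega⟩) (x ⟨1, by omega⟩)
    else ∃ i : Fin k, O (x i)

theorem lt_mkK {n : ℕ} (L : Fin n → Fin n → Prop) (O : Fin n → Prop) (c : Fin n)
    (h : Fin n → Fin n) (x y : Fin n) : lt (mkK L O c h) x y ↔ L x y := by
  unfold lt mkK
  simp

theorem odd_mkK {n : ℕ} (L : Fin n → Fin n → Prop) (O : Fin n → Prop) (c : Fin n)
    (h : Fin n → Fin n) (x : Fin n) : odd (mkK L O c h) x ↔ O x := by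
  unfold odd mkK
  simp

theorem con_mkK {n : ℕ} (L : Fin n → Fin n → Prop) (O : Fin n → Prop) (c : Fin n)
    (h : Fin n → Fin n) : con (mkK L O c h) = c := by
  unfold con mkK
  simp

theorem half_mkK {n : ℕ} (L : Fin n → Fin n → Prop) (O : Fin n → Prop) (c : Fin n)
    (h : Fin n → Fin n) (x : Fin n) : half (mkK L O c h) x = h x := by
  unfold half mkK
  simp

theorem isoK_iff {n : ℕ} (A B : Str sigK n) :
    Iso A B ↔ ∃ e : Fin n ≃ Fin n, (∀ x y, lt B (e x) (e y) ↔ lt A x y) ∧
      (∀ x, odd B (e x) ↔ odd A x) ∧ con B = e (con A) ∧ ∀ x, half B (e x) = e (half A x) := by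
  constructor
  · rintro ⟨e⟩
    refine ⟨@FirstOrder.Language.Equiv.toEquiv _ _ _ A B e, fun x y => ?_, fun x => ?_, ?_,
      fun x => ?_⟩
    · have := @FirstOrder.Language.Equiv.map_rel' _ _ _ A B e _ symLt ![x, y]
      unfold lt
      rw [← this]
      apply iff_of_eq
      congr 1
      ext i
      fin_cases i <;> rfl
    · have := @FirstOrder.Language.Equiv.map_rel' _ _ _ A B e _ symOdd ![x]
      unfold odd
      rw [← this]
      apply iff_of_eq
      congr 1
      ext i
      fin_cases i
      rfl
    · have := @FirstOrder.Language.Equiv.map_fun' _ _ _ A B e _ symC ![]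
      unfold con
      refine Eq.trans ?_ this.symm
      congr 1
      ext i
      exact Fin.elim0 i
    · have := @FirstOrder.Language.Equiv.map_fun' _ _ _ A B e _ symH ![x]
      unfold half
      refine Eq.trans ?_ this.symm
      congr 1
      ext i
      fin_cases i
      rfl
  · rintro ⟨e, h1, h2, h3, h4⟩
    refine ⟨@FirstOrder.Language.Equiv.mk _ _ _ A B e ?_ ?_⟩
    · intro k f x
      obtain ⟨i, hi⟩ := f
      have hi2 : i = (0 : Fin 2) ∨ i = (1 : Fin 2) := by
        rcases i with ⟨i, hi'⟩
        have : i < 2 := hi'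
        have : i = 0 ∨ i = 1 := by omega
        rcases this with rfl | rfl
        · exact Or.inl rfl
        · exact Or.inr rfl
      rcases hi2 with rfl | rfl
      · have hk : k = 0 := hi.symm
        subst hk
        have hx1 : x = ![] := by ext i; exact Fin.elim0 i
        have hx2 : (e.toFun ∘ x) = ![] := by ext i; exact Fin.elim0 i
        rw [hx2, hx1]
        exact h3.symm
      · have hk : k = 1 := hi.symm
        subst hk
        have hx1 : x = ![x 0] := by
          ext i; fin_cases i; rfl
        have hx2 : (e.toFun ∘ x) = ![e (x 0)] := by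
          ext i; fin_cases i; rfl
        rw [hx2, hx1]
        exact (h4 (x 0)).symm
    · intro k r x
      obtain ⟨i, hi⟩ := r
      have hi2 : i = (0 : Fin 2) ∨ i = (1 : Fin 2) := by
        rcases i with ⟨i, hi'⟩
        have : i < 2 := hi'
        have : i = 0 ∨ i = 1 := by omega
        rcases this with rfl | rfl
        · exact Or.inl rfl
        · exact Or.inr rfl
      rcases hi2 with rfl | rfl
      · have hk : k = 2 := hi.symm
        subst hk
        have hx1 : x = ![x 0, x 1] := by
          ext i; fin_cases i <;> rfl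
        have hx2 : (e.toFun ∘ x) = ![e (x 0), e (x 1)] := by
          ext i; fin_cases i <;> rfl
        rw [hx2, hx1]
        exact h1 (x 0) (x 1)
      · have hk : k = 1 := hi.symm
        subst hk
        have hx1 : x = ![x 0] := by
          ext i; fin_cases i; rfl
        have hx2 : (e.toFun ∘ x) = ![e (x 0)] := by
          ext i; fin_cases i; rfl
        rw [hx2, hx1]
        exact h2 (x 0)

open Classical in
/-- The number of elements below `x`. -/
noncomputable def rank {n : ℕ} (A : Str sigK n) (x : Fin n) : ℕ :=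
  (Finset.univ.filter fun z => lt A z x).card

theorem rank_iso {n : ℕ} (A B : Str sigK n) (e : Fin n ≃ Fin n)
    (h : ∀ x y, lt B (e x) (e y) ↔ lt A x y) (x : Fin n) : rank B (e x) = rank A x := by
  classical
  unfold rank
  symm
  refine Finset.card_equiv e ?_
  intro z
  simp [h]

section

variable {n : ℕ} {A : Str sigK n} (hA : K.Mem A)

include hA

theorem rank_lt_rank {x y : Fin n} (h : lt A x y) : rank A x < rank A y := by
  classical
  obtain ⟨h1, h2, h3, h4, h5⟩ := (mem_K A).1 hA
  unfold rank
  refine Finset.card_lt_card ?_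
  rw [Finset.ssubset_iff_of_subset]
  · refine ⟨x, ?_, ?_⟩
    · simpa using h
    · simpa using h1 x
  · intro z hz
    simp only [Finset.mem_filter, Finset.mem_univ, true_and] at hz ⊢
    exact h2 z x y hz h

theorem rank_lt_iff {x y : Fin n} : rank A x < rank A y ↔ lt A x y := by
  obtain ⟨h1, h2, h3, h4, h5⟩ := (mem_K A).1 hA
  constructor
  · intro h
    rcases h3 x y with h' | h' | h'
    · exact h'
    · rw [h'] at h
      exact absurd h (lt_irrefl _)
    · exact absurd (rank_lt_rank hA h') (by omega)
  · exact rank_lt_rank hA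

theorem rank_inj {x y : Fin n} (h : rank A x = rank A y) : x = y := by
  obtain ⟨h1, h2, h3, h4, h5⟩ := (mem_K A).1 hA
  rcases h3 x y with h' | h' | h'
  · exact absurd (rank_lt_rank hA h') (by omega)
  · exact h'
  · exact absurd (rank_lt_rank hA h') (by omega)

theorem rank_lt (x : Fin n) : rank A x < n := by
  classical
  obtain ⟨h1, h2, h3, h4, h5⟩ := (mem_K A).1 hA
  have : (Finset.univ.filter fun z => lt A z x).card < (Finset.univ : Finset (Fin n)).card := by
    refine Finset.card_lt_card ?_
    rw [Finset.ssubset_iff_of_subset (Finset.subset_univ _)]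
    exact ⟨x, Finset.mem_univ _, by simpa using h1 x⟩
  simpa [rank] using this

theorem exists_rank (k : ℕ) (hk : k < n) : ∃ x, rank A x = k := by
  have hinj : Function.Injective (fun x : Fin n => (⟨rank A x, rank_lt hA x⟩ : Fin n)) := by
    intro x y h
    exact rank_inj hA (congrArg Fin.val h)
  obtain ⟨x, hx⟩ := Finite.surjective_of_injective hinj ⟨k, hk⟩
  exact ⟨x, congrArg Fin.val hx⟩

theorem rank_spec (k : ℕ) : ∀ x, rank A x = k → (odd A x ↔ k % 2 = 1) ∧
    rank A (half A x) = k / 2 := by
  obtain ⟨h1, h2, h3, h4, h5⟩ := (mem_K A).1 hA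
  induction k with
  | zero =>
    intro x hx
    obtain ⟨h6, h7⟩ := h4 x fun y hy => by
      have := rank_lt_rank hA hy
      omega
    rw [h7, hx]
    simp [h6]
  | succ k ih =>
    intro y hy
    have hyn := rank_lt hA y
    obtain ⟨x, hx⟩ := exists_rank hA k (by omega)
    obtain ⟨ih1, ih2⟩ := ih x hx
    obtain ⟨h6, h7, h8⟩ := h5 x y ((rank_lt_iff hA).1 (by omega)) fun z hz => by
      have := rank_lt_rank hA hz.1
      have := rank_lt_rank hA hz.2
      omega
    constructor
    · rw [h6, ih1]
      omega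
    · by_cases ho : odd A x
      · obtain ⟨h9, h10⟩ := h7 ho
        have h11 := rank_lt_rank hA h9
        have h12 := rank_lt hA (half A y)
        have h13 := ih1.1 ho
        by_contra hne
        obtain ⟨z, hz⟩ := exists_rank hA (rank A (half A x) + 1) (by omega)
        exact h10 z ⟨(rank_lt_iff hA).1 (by omega), (rank_lt_iff hA).1 (by omega)⟩
      · rw [h8 ho, ih2]
        rw [ih1] at ho
        omega

theorem odd_iff (x : Fin n) : odd A x ↔ rank A x % 2 = 1 := (rank_spec hA _ x rfl).1

theorem rank_half (x : Fin n) : rank A (half A x) = rank A x / 2 := (rank_spec hA _ x rfl).2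

theorem half_of_rank_zero (x : Fin n) (h : rank A x = 0) : half A x = x := by
  refine rank_inj hA ?_
  rw [rank_half hA, h]

end

theorem isoK_iff_rank {n : ℕ} {A B : Str sigK n} (hA : K.Mem A) (hB : K.Mem B) :
    Iso A B ↔ rank A (con A) = rank B (con B) := by
  constructor
  · intro h
    obtain ⟨e, h1, h2, h3, h4⟩ := (isoK_iff A B).1 h
    rw [h3, rank_iso A B e h1]
  · intro h
    have hAb : Function.Bijective (fun x : Fin n => (⟨rank A x, rank_lt hA x⟩ : Fin n)) :=
      Finite.injective_iff_bijective.1 fun x y h => rank_inj hA (congrArg Fin.val h)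
    have hBb : Function.Bijective (fun x : Fin n => (⟨rank B x, rank_lt hB x⟩ : Fin n)) :=
      Finite.injective_iff_bijective.1 fun x y h => rank_inj hB (congrArg Fin.val h)
    let e : Fin n ≃ Fin n := (Equiv.ofBijective _ hAb).trans (Equiv.ofBijective _ hBb).symm
    have he : ∀ x, rank B (e x) = rank A x := by
      intro x
      have : (Equiv.ofBijective _ hBb) (e x) = (Equiv.ofBijective _ hAb) x := by
        simp [e]
      exact congrArg Fin.val this
    refine (isoK_iff A B).2 ⟨e, ?_, ?_, ?_, ?_⟩
    · intro x y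
      rw [← rank_lt_iff hA, ← rank_lt_iff hB, he, he]
    · intro x
      rw [odd_iff hA, odd_iff hB, he]
    · refine rank_inj hB ?_
      rw [he, h]
    · intro x
      refine rank_inj hB ?_
      rw [he, rank_half hB, rank_half hA, he]

/-- The standard structure in which the constant has number `c`. -/
@[reducible] def std {n : ℕ} (c : Fin n) : Str sigK n :=
  mkK (fun x y => x < y) (fun x => x.val % 2 = 1) c (fun x => ⟨x.val / 2, by omega⟩)

theorem std_mem {n : ℕ} (c : Fin n) : K.Mem (std c) := by
  rw [mem_K]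
  simp only [lt_mkK, odd_mkK, half_mkK]
  refine ⟨fun x => lt_irrefl x, fun x y z => lt_trans, fun x y => lt_trichotomy x y, ?_, ?_⟩
  · intro x hx
    have h0 : x.val = 0 := by
      by_contra hne
      exact hx ⟨0, by omega⟩ (by rw [Fin.lt_def]; show 0 < x.val; omega)
    refine ⟨by omega, Fin.ext ?_⟩
    show x.val / 2 = x.val
    omega
  · intro x y hxy hno
    rw [Fin.lt_def] at hxy
    have hy : y.val = x.val + 1 := by
      by_contra hne
      refine hno ⟨x.val + 1, by omega⟩ ⟨?_, ?_⟩
      · rw [Fin.lt_def]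
        show x.val < x.val + 1
        omega
      · rw [Fin.lt_def]
        show x.val + 1 < y.val
        omega
    refine ⟨by omega, ?_, ?_⟩
    · intro ho
      refine ⟨?_, ?_⟩
      · rw [Fin.lt_def]
        show x.val / 2 < y.val / 2
        omega
      · rintro z ⟨hz1, hz2⟩
        rw [Fin.lt_def] at hz1 hz2
        change x.val / 2 < z.val at hz1
        change z.val < y.val / 2 at hz2
        omega
    · intro ho
      refine Fin.ext ?_
      show y.val / 2 = x.val / 2
      omega

theorem rank_std {n : ℕ} (c x : Fin n) : rank (std c) x = x.val := by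
  classical
  unfold rank
  simp only [lt_mkK]
  have : (Finset.univ.filter fun z : Fin n => z < x) = Finset.Iio x := by
    ext z
    simp
  rw [this, Fin.card_Iio]

theorem K_types (n : ℕ) : K.types n = n := by
  classical
  unfold FOClass.types
  let F : Quotient (K.isoSetoid n) → Fin n := Quotient.lift
    (fun A : {A : Str K.sig n // K.Mem A} => (⟨rank A.1 (con A.1), rank_lt A.2 _⟩ : Fin n)) (by
      rintro ⟨A, hA⟩ ⟨B, hB⟩ h
      exact Fin.ext ((isoK_iff_rank hA hB).1 h))
  have hF : Function.Bijective F := by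
    constructor
    · intro a b
      induction a using Quotient.inductionOn with | _ a =>
      induction b using Quotient.inductionOn with | _ b =>
      obtain ⟨A, hA⟩ := a
      obtain ⟨B, hB⟩ := b
      intro h
      refine Quotient.sound ?_
      exact (isoK_iff_rank hA hB).2 (congrArg Fin.val h)
    · intro c
      refine ⟨Quotient.mk _ ⟨std c, std_mem c⟩, ?_⟩
      refine Fin.ext ?_
      show rank (std c) (con (std c)) = c.val
      rw [rank_std, con_mkK]
  rw [Nat.card_congr (Equiv.ofBijective F hF)]
  simp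

end Pool.Agent.H82.RA
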