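import Pool.Agent.H82.RA.ClassK
import Pool.Agent.H82.RA.ClassJ

set_option autoImplicit false

namespace Pool.Agent.H82.RA

open Filter

/-! ### The input arrays -/

theorem mem_code_le {s : Sig} {n : ℕ} (A : Str s n) {v : ℕ} (h : v ∈ code A) : v ≤ n + 1 := by
  classical
  unfold code at h
  rw [List.mem_cons, List.mem_append, List.mem_flatten, List.mem_flatten] at h
  rcases h with h | ⟨l, hl, hv⟩ | ⟨l, hl, hv⟩
  · omega
  · obtain ⟨i, rfl⟩ := (List.mem_ofFn' _ _).1 hl
    unfold relTable at hv
    obtain ⟨k, hk⟩ := (List.mem_ofFn' _ _).1 hv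
    simp only at hk
    split_ifs at hk <;> omega
  · obtain ⟨i, rfl⟩ := (List.mem_ofFn' _ _).1 hl
    unfold fnTable at hv
    obtain ⟨k, hk⟩ := (List.mem_ofFn' _ _).1 hv
    have := (A.funMap (⟨i, rfl⟩ : s.lang.Functions (s.fn.get i))
      (finFunctionFinEquiv.symm k)).isLt
    simp only at hk
    omega

theorem mem_pairCode_le {s : Sig} {n : ℕ} (A B : Str s n) {v : ℕ} (h : v ∈ pairCode A B) :
    v ≤ n + 1 := by
  unfold pairCode at h
  rw [List.mem_append] at h
  rcases h with h | h
  · exact mem_code_le A h
  · exact mem_code_le B h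

theorem ofFn_one {n : ℕ} (F : (Fin 1 → Fin n) → ℕ) :
    List.ofFn (fun k : Fin (n ^ 1) => F (finFunctionFinEquiv.symm k)) =
      List.ofFn (fun x : Fin n => F ![x]) := by
  apply List.ext_getElem
  · simp
  · intro i h1 h2
    rw [List.getElem_ofFn, List.getElem_ofFn]
    congr 1
    rw [Equiv.symm_apply_eq]
    refine Fin.ext ?_
    rw [finFunctionFinEquiv_apply]
    simp

theorem ofFn_zero {n : ℕ} (F : (Fin 0 → Fin n) → ℕ) :
    List.ofFn (fun k : Fin (n ^ 0) => F (finFunctionFinEquiv.symm k)) = [F ![]] := by
  apply List.ext_getElem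
  · simp
  · intro i h1 h2
    rw [List.getElem_ofFn]
    have hi : i = 0 := by simpa using h2
    subst hi
    rw [List.getElem_cons_zero]
    congr 1
    ext j
    exact Fin.elim0 j

open Classical in
theorem code_J {n : ℕ} (A : Str sigJ n) :
    code A = n :: List.ofFn (fun x : Fin n => if pred A x then 1 else 0) := by
  have h1 : List.ofFn (relTable A) = [relTable A (0 : Fin 1)] := List.ofFn_succ (n := 0)
  have h2 : List.ofFn (fnTable A) = [] := List.ofFn_zero
  unfold code
  rw [h1, h2]
  simp only [List.flatten_cons, List.flatten_nil, List.append_nil]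
  congr 1
  exact ofFn_one (fun x => if A.RelMap symP x then 1 else 0)

open Classical in
theorem code_K {n : ℕ} (A : Str sigK n) : ∃ T : List ℕ, T.length = n * n ∧
    code A = n :: (T ++ (List.ofFn (fun x : Fin n => if odd A x then 1 else 0) ++
      ((con A).val + 1) :: List.ofFn (fun x : Fin n => (half A x).val + 1))) := by
  have h1 : List.ofFn (relTable A) = [relTable A (0 : Fin 2), relTable A (1 : Fin 2)] := by
    refine (List.ofFn_succ (n := 1)).trans ?_
    congr 1
  have h2 : List.ofFn (fnTable A) = [fnTable A (0 : Fin 2), fnTable A (1 : Fin 2)] := by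
    refine (List.ofFn_succ (n := 1)).trans ?_
    congr 1
  refine ⟨relTable A (0 : Fin 2), ?_, ?_⟩
  · unfold relTable
    rw [List.length_ofFn]
    exact sq n
  · unfold code
    rw [h1, h2]
    simp only [List.flatten_cons, List.flatten_nil, List.append_nil]
    have e1 : relTable A (1 : Fin 2) = List.ofFn (fun x : Fin n => if odd A x then 1 else 0) :=
      ofFn_one (fun x => if A.RelMap symOdd x then 1 else 0)
    have e2 : fnTable A (0 : Fin 2) = [(con A).val + 1] :=
      ofFn_zero (fun x => (A.funMap symC x).val + 1)
    have e3 : fnTable A (1 : Fin 2) = List.ofFn (fun x : Fin n => (half A x).val + 1) :=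
      ofFn_one (fun x => (A.funMap symH x).val + 1)
    rw [e1, e2, e3]
    simp

theorem length_code_J {n : ℕ} (A : Str sigJ n) : (code A).length = n + 1 := by
  classical
  rw [code_J]
  simp

theorem length_code_K {n : ℕ} (A : Str sigK n) : (code A).length = n * n + n + 1 + n + 1 := by
  obtain ⟨T, hT, h⟩ := code_K A
  rw [h]
  simp only [List.length_append, List.length_cons, List.length_ofFn, hT]
  ring

open Classical in
theorem look_J {n : ℕ} (A : Str sigJ n) (l : List ℕ) :
    (code A ++ l)[0]?.getD 0 = n ∧
    (∀ x : Fin n, (code A ++ l)[x.val + 1]?.getD 0 = if pred A x then 1 else 0) := by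
  rw [code_J]
  constructor
  · rfl
  · intro x
    rw [List.cons_append, List.getElem?_cons_succ, List.getElem?_append_left (by simp),
      List.getElem?_ofFn, dif_pos x.isLt]
    rfl

open Classical in
theorem look_K {n : ℕ} (A : Str sigK n) (l : List ℕ) :
    (code A ++ l)[0]?.getD 0 = n ∧
    (∀ x : Fin n, (code A ++ l)[n * n + (x.val + 1)]?.getD 0 = if odd A x then 1 else 0) ∧
    (code A ++ l)[n * n + n + 1]?.getD 0 = (con A).val + 1 ∧
    (∀ x : Fin n, (code A ++ l)[n * n + n + 1 + (x.val + 1)]?.getD 0 = (half A x).val + 1) := by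
  obtain ⟨T, hT, h⟩ := code_K A
  rw [h]
  refine ⟨rfl, ?_, ?_, ?_⟩
  · intro x
    rw [List.cons_append, ← add_assoc (n * n) x.val 1, List.getElem?_cons_succ, List.append_assoc,
      List.getElem?_append_right (by omega), hT, Nat.add_sub_cancel_left, List.append_assoc,
      List.getElem?_append_left (by simp), List.getElem?_ofFn, dif_pos x.isLt]
    rfl
  · rw [List.cons_append, List.getElem?_cons_succ, List.append_assoc,
      List.getElem?_append_right (by omega), hT, Nat.add_sub_cancel_left, List.append_assoc,
      List.getElem?_append_right (by simp)]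
    simp
  · intro x
    rw [List.cons_append, ← add_assoc (n * n + n + 1) x.val 1, List.getElem?_cons_succ,
      List.append_assoc, List.getElem?_append_right (by omega), hT,
      show n * n + n + 1 + x.val - n * n = n + (x.val + 1) by omega, List.append_assoc,
      List.getElem?_append_right (by simp), List.length_ofFn, Nat.add_sub_cancel_left,
      List.cons_append, List.getElem?_cons_succ, List.getElem?_append_left (by simp),
      List.getElem?_ofFn, dif_pos x.isLt]
    rfl

theorem look_right (l l' : List ℕ) (i m : ℕ) (h : l.length = m) :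
    (l ++ l')[m + i]?.getD 0 = (l' ++ [])[i]?.getD 0 := by
  rw [List.append_nil, List.getElem?_append_right (by omega), h, Nat.add_sub_cancel_left]

end Pool.Agent.H82.RA
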