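import Mathlib

set_option autoImplicit false

namespace Pool.Agent.H82.RA

open Filter

/-! ### Classes of structures of finite type -/

/-- A finite signature: the lists of arities of its relation symbols and of its function symbols.
A function symbol of arity `0` is a constant symbol. -/
structure Sig where
  rel : List ℕ
  fn : List ℕ

/-- The first-order language of a finite signature. -/
def Sig.lang (s : Sig) : FirstOrder.Language.{0, 0} where
  Functions k := {i : Fin s.fn.length // s.fn.get i = k}
  Relations k := {i : Fin s.rel.length // s.rel.get i = k}

/-- Structures of the signature `s` whose universe is the `n`-element set `{1, ..., n}`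
(written as `Fin n`, the element `i : Fin n` standing for `i + 1`). -/
abbrev Str (s : Sig) (n : ℕ) : Type := s.lang.Structure (Fin n)

/-- A first-order definable class of structures of finite type, given by a finite signature and one
first-order sentence; its members are the finite models of the sentence. -/
structure FOClass where
  sig : Sig
  ax : sig.lang.Sentence

/-- `A` is an `n`-element member of the class `L`. -/
def FOClass.Mem (L : FOClass) {n : ℕ} (A : Str L.sig n) : Prop :=
  @FirstOrder.Language.Sentence.Realize L.sig.lang (Fin n) A L.ax

/-- Isomorphism of structures. -/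
def Iso {s : Sig} {n : ℕ} (A B : Str s n) : Prop :=
  Nonempty (@FirstOrder.Language.Equiv s.lang (Fin n) (Fin n) A B)

theorem Iso.refl {s : Sig} {n : ℕ} (A : Str s n) : Iso A A :=
  ⟨@FirstOrder.Language.Equiv.refl s.lang (Fin n) A⟩

theorem Iso.symm {s : Sig} {n : ℕ} {A B : Str s n} (h : Iso A B) : Iso B A :=
  h.elim fun e => ⟨@FirstOrder.Language.Equiv.symm s.lang (Fin n) (Fin n) A B e⟩

theorem Iso.trans {s : Sig} {n : ℕ} {A B C : Str s n} (h : Iso A B) (h' : Iso B C) : Iso A C :=
  h.elim fun e => h'.elim fun e' =>
    ⟨@FirstOrder.Language.Equiv.comp s.lang (Fin n) (Fin n) A B (Fin n) C e' e⟩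

/-- Isomorphism as an equivalence relation on the `n`-element members of `L`. -/
def FOClass.isoSetoid (L : FOClass) (n : ℕ) : Setoid {A : Str L.sig n // L.Mem A} where
  r A B := Iso A.1 B.1
  iseqv := ⟨fun A => Iso.refl A.1, fun h => h.symm, fun h h' => h.trans h'⟩

/-- `f_L(n)`: the number of isomorphism types of `n`-element members of `L`. -/
noncomputable def FOClass.types (L : FOClass) (n : ℕ) : ℕ :=
  Nat.card (Quotient (L.isoSetoid n))

/-! ### Inputs: arrays of numbers; every symbol is given by its full table -/

open Classical in
/-- The full table of the `i`-th relation symbol: one cell for each tuple, with the entry `1` if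
the relation holds and `0` if it does not. -/
noncomputable def relTable {s : Sig} {n : ℕ} (A : Str s n) (i : Fin s.rel.length) : List ℕ :=
  List.ofFn (fun k : Fin (n ^ s.rel.get i) =>
    if A.RelMap (⟨i, rfl⟩ : s.lang.Relations (s.rel.get i)) (finFunctionFinEquiv.symm k)
    then 1 else 0)

/-- The full table of the `i`-th function symbol: one cell for each tuple, with the value, which
is one of the numbers `1, ..., n`. -/
noncomputable def fnTable {s : Sig} {n : ℕ} (A : Str s n) (i : Fin s.fn.length) : List ℕ :=
  List.ofFn (fun k : Fin (n ^ s.fn.get i) =>
    (A.funMap (⟨i, rfl⟩ : s.lang.Functions (s.fn.get i)) (finFunctionFinEquiv.symm k)).val + 1)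

/-- The code of a structure: its size, then the full tables of all its symbols. -/
noncomputable def code {s : Sig} {n : ℕ} (A : Str s n) : List ℕ :=
  n :: ((List.ofFn (relTable A)).flatten ++ (List.ofFn (fnTable A)).flatten)

/-- The input of an isomorphism testing algorithm: the codes of two structures. -/
noncomputable def pairCode {s : Sig} {n : ℕ} (A B : Str s n) : List ℕ := code A ++ code B

/-! ### Models of computation, isomorphism testing algorithms, and the assertion of Q1 -/

/-- A model of deterministic computation on arrays of numbers: a type of algorithms, and the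
relation `Halts γ w b t`: on the input `w` the algorithm `γ` halts with answer `b` after time
exactly `t`. -/
structure Model where
  Alg : Type
  Halts : Alg → List ℕ → Bool → ℕ → Prop
  det : ∀ γ w b t b' t', Halts γ w b t → Halts γ w b' t' → b = b' ∧ t = t'

/-- `γ` is an isomorphism testing algorithm for `L`: it halts on every pair of `n`-element members
of `L` and says whether they are isomorphic. -/
def IsTest (M : Model) (L : FOClass) (γ : M.Alg) : Prop :=
  ∀ (n : ℕ) (A B : Str L.sig n), L.Mem A → L.Mem B →
    ∃ b t, M.Halts γ (pairCode A B) b t ∧ (b = true ↔ Iso A B)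

/-- `m_L(γ, n)`: the largest time which `γ` uses on any pair of `n`-element members of `L`. -/
noncomputable def maxTime (M : Model) (L : FOClass) (γ : M.Alg) (n : ℕ) : ℕ :=
  sSup {t | ∃ A B : Str L.sig n, L.Mem A ∧ L.Mem B ∧ ∃ b, M.Halts γ (pairCode A B) b t}

/-- The conclusion of the assertion of Q1 for the classes `J` and `K`: one can find a polynomial
`p` such that for each isomorphism testing algorithm `α` for `K` some isomorphism testing algorithm
`β` for `J` satisfies `m_J(β, n) ≤ p(m_K(α, n))` for all sufficiently large `n`. -/
def Conclusion (M : Model) (J K : FOClass) : Prop :=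
  ∃ p : Polynomial ℝ, ∀ α : M.Alg, IsTest M K α →
    ∃ β : M.Alg, IsTest M J β ∧
      ∀ᶠ n in atTop, (maxTime M J β n : ℝ) ≤ p.eval (maxTime M K α n : ℝ)

/-! ### Random access machines -/

/-- Instructions of a random access machine with registers `R 0, R 1, ...` holding natural
numbers. -/
inductive Instr
  /-- `R i := c` -/
  | const (i c : ℕ)
  /-- `R i := R j + R k` -/
  | add (i j k : ℕ)
  /-- `R i := R j - R k` -/
  | sub (i j k : ℕ)
  /-- `R i := R j * R k` -/
  | mul (i j k : ℕ)
  /-- `R i := R j / R k` -/
  | div (i j k : ℕ)
  /-- `R i := R (R j)` -/
  | load (i j : ℕ)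
  /-- `R (R i) := R j` -/
  | store (i j : ℕ)
  /-- `R i :=` the length of the input array -/
  | len (i : ℕ)
  /-- `R i :=` the input cell with index `R j` -/
  | read (i j : ℕ)
  /-- if `R i = 0` then continue with instruction number `l` -/
  | jump (i l : ℕ)
  /-- halt with answer `b` -/
  | halt (b : Bool)

/-- Configurations of a random access machine: the instruction counter and the registers. -/
structure Cfg where
  pc : ℕ
  R : ℕ → ℕ

/-- The answer of the program `P` in the configuration `c`, if it halts there; running beyond the
end of the program counts as the answer `false`. -/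
def answer (P : List Instr) (c : Cfg) : Option Bool :=
  match P[c.pc]? with
  | none => some false
  | some (.halt b) => some b
  | some _ => none

/-- One step of the program `P` on the input array `w`; the cells beyond the end of the input have
content `0`. -/
def next (P : List Instr) (w : List ℕ) (c : Cfg) : Cfg :=
  match P[c.pc]? with
  | none => c
  | some (.const i v) => ⟨c.pc + 1, Function.update c.R i v⟩
  | some (.add i j k) => ⟨c.pc + 1, Function.update c.R i (c.R j + c.R k)⟩
  | some (.sub i j k) => ⟨c.pc + 1, Function.update c.R i (c.R j - c.R k)⟩
  | some (.mul i j k) => ⟨c.pc + 1, Function.update c.R i (c.R j * c.R k)⟩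
  | some (.div i j k) => ⟨c.pc + 1, Function.update c.R i (c.R j / c.R k)⟩
  | some (.load i j) => ⟨c.pc + 1, Function.update c.R i (c.R (c.R j))⟩
  | some (.store i j) => ⟨c.pc + 1, Function.update c.R (c.R i) (c.R j)⟩
  | some (.len i) => ⟨c.pc + 1, Function.update c.R i w.length⟩
  | some (.read i j) => ⟨c.pc + 1, Function.update c.R i (w[c.R j]?.getD 0)⟩
  | some (.jump i l) => ⟨if c.R i = 0 then l else c.pc + 1, c.R⟩
  | some (.halt _) => c

/-- A cost function: the cost of the next step of the program `P` on the input `w` in the
configuration `c`. -/
abbrev CostFn : Type := List Instr → List ℕ → Cfg → ℕ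

/-- `Run κ P w c b t`: started in the configuration `c` the program `P` halts on the input `w`
with the answer `b`, and the sum of the costs of the steps is `t`. -/
inductive Run (κ : CostFn) (P : List Instr) (w : List ℕ) : Cfg → Bool → ℕ → Prop
  | halt (c : Cfg) (b : Bool) (h : answer P c = some b) : Run κ P w c b 0
  | step (c : Cfg) (b : Bool) (t : ℕ) (h : answer P c = none) (h' : Run κ P w (next P w c) b t) :
      Run κ P w c b (κ P w c + t)

theorem Run.det {κ : CostFn} {P : List Instr} {w : List ℕ} {c : Cfg} {b b' : Bool} {t t' : ℕ}
    (h : Run κ P w c b t) (h' : Run κ P w c b' t') : b = b' ∧ t = t' := by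
  induction h generalizing t' with
  | halt c b h =>
    cases h' with
    | halt _ _ g =>
      rw [h] at g
      exact ⟨by simpa using g, rfl⟩
    | step _ _ _ g _ =>
      rw [h] at g
      exact absurd g (by simp)
  | step c b t h _ ih =>
    cases h' with
    | halt _ _ g =>
      rw [h] at g
      exact absurd g (by simp)
    | step _ _ _ g g' =>
      obtain ⟨h1, h2⟩ := ih g'
      exact ⟨h1, by rw [h2]⟩

/-- Random access machines with the cost function `κ`. At the start all registers are `0`. -/
def ram (κ : CostFn) : Model where
  Alg := List Instr
  Halts P w b t := Run κ P w ⟨0, fun _ => 0⟩ b t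
  det _ _ _ _ _ _ h h' := h.det h'

/-- The unit cost function. -/
def unitCost : CostFn := fun _ _ _ => 1

/-- The logarithmic cost function: `1` plus the number of binary digits of all numbers which occur
in the step. -/
def logCost : CostFn := fun P w c =>
  match P[c.pc]? with
  | none => 1
  | some (.const i v) => 1 + i.size + v.size
  | some (.add i j k) => 1 + i.size + j.size + k.size + (c.R j).size + (c.R k).size
  | some (.sub i j k) => 1 + i.size + j.size + k.size + (c.R j).size + (c.R k).size
  | some (.mul i j k) => 1 + i.size + j.size + k.size + (c.R j).size + (c.R k).size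
  | some (.div i j k) => 1 + i.size + j.size + k.size + (c.R j).size + (c.R k).size
  | some (.load i j) => 1 + i.size + j.size + (c.R j).size + (c.R (c.R j)).size
  | some (.store i j) => 1 + i.size + j.size + (c.R i).size + (c.R j).size
  | some (.len i) => 1 + i.size + w.length.size
  | some (.read i j) => 1 + i.size + j.size + (c.R j).size + (w[c.R j]?.getD 0).size
  | some (.jump i l) => 1 + i.size + l.size + (c.R i).size
  | some (.halt _) => 1

/-- Every step costs at least `1` and, for each program, at most a power of the logarithm of the
numbers which occur in the input and in the registers. -/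
structure Admissible (κ : CostFn) : Prop where
  pos : ∀ P w c, 1 ≤ κ P w c
  le : ∀ P, ∃ D : ℕ, ∀ w c M, 2 ≤ M → w.length ≤ M → (∀ x ∈ w, x ≤ M) → (∀ i, c.R i ≤ M) →
    κ P w c ≤ D * Nat.log 2 M ^ D

end Pool.Agent.H82.RA
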