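import Pool.Agent.H82.RA.Upper

set_option autoImplicit false

namespace Pool.Agent.H82.RA

open Filter

/-! ### The number of isomorphism types bounds the running time from below -/

theorem length_code_eq {s : Sig} {n : ℕ} (A B : Str s n) : (code A).length = (code B).length := by
  unfold code
  simp only [List.length_cons, List.length_append, List.length_flatten, List.map_ofFn]
  congr 4
  · funext i
    simp [relTable]
  · funext i
    simp [fnTable]

/-- A program which accepts all pairs `(l i, l i)` in time `t`, and no pair `(l i, l j)` with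
`i ≠ j`, can distinguish at most `(n + 2) ^ t` lists `l i` with entries at most `n + 1`. -/
theorem card_le_of_runs {κ : CostFn} (hκ : ∀ P w c, 1 ≤ κ P w c) {P : List Instr} {ι : Type*}
    {n N : ℕ} (l : ι → List ℕ) (hlen : ∀ i, (l i).length = N) (hle : ∀ i, ∀ v ∈ l i, v ≤ n + 1)
    (t : ℕ) : ∀ (I : Finset ι) (c : Cfg),
      (∀ i ∈ I, ∃ t' ≤ t, Run κ P (l i ++ l i) c true t') →
      (∀ i ∈ I, ∀ j ∈ I, i ≠ j → ∀ t', ¬ Run κ P (l i ++ l j) c true t') →
      I.card ≤ (n + 2) ^ t := by
  classical
  have hget : ∀ i j (k : ℕ), (l i ++ l j)[k]?.getD 0 < n + 2 := by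
    intro i j k
    cases h : (l i ++ l j)[k]? with
    | none => simp
    | some x =>
      obtain ⟨hk, rfl⟩ := List.getElem?_eq_some_iff.1 h
      have hm := List.getElem_mem hk
      rw [List.mem_append] at hm
      have : (l i ++ l j)[k] ≤ n + 1 := by
        rcases hm with hm | hm
        · exact hle i _ hm
        · exact hle j _ hm
      simp only [Option.getD_some]
      omega
  induction t with
  | zero =>
    intro I c h1 h2
    rw [pow_zero]
    rw [Finset.card_le_one]
    intro i hi j hj
    by_contra hij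
    obtain ⟨t', ht', hrun⟩ := h1 i hi
    cases hrun with
    | halt _ _ h => exact h2 i hi j hj hij 0 (Run.halt c true h)
    | step _ _ t'' h _ =>
      have := hκ P (l i ++ l i) c
      omega
  | succ t ih =>
    intro I c h1 h2
    by_cases hcard : I.card ≤ 1
    · exact hcard.trans (Nat.one_le_pow _ _ (by omega))
    push Not at hcard
    obtain ⟨i0, hi0, j0, hj0, hij0⟩ := Finset.one_lt_card.1 hcard
    have hans : answer P c = none := by
      by_contra hne
      obtain ⟨b, hb⟩ := Option.ne_none_iff_exists'.1 hne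
      obtain ⟨t', ht', hrun⟩ := h1 i0 hi0
      have hbt := (hrun.det (Run.halt c b hb)).1
      subst hbt
      exact h2 i0 hi0 j0 hj0 hij0 0 (Run.halt c _ hb)
    let k : ℕ := match P[c.pc]? with
      | some (.read _ j) => c.R j
      | _ => 0
    have hnext : ∀ w w' : List ℕ, w.length = w'.length → w[k]?.getD 0 = w'[k]?.getD 0 →
        next P w c = next P w' c := by
      intro w w' hw hk
      unfold next
      simp only [k] at hk
      split <;> simp_all
    let v : ι → ℕ := fun i => (l i ++ l i)[k]?.getD 0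
    have hmaps : Set.MapsTo v I (Finset.range (n + 2)) := by
      intro i _
      exact Finset.mem_coe.2 (Finset.mem_range.2 (hget i i k))
    have hval : ∀ i j, v i = v j → (l i ++ l j)[k]?.getD 0 = v i := by
      intro i j hij
      by_cases hk : k < N
      · simp only [v]
        rw [List.getElem?_append_left (by rw [hlen]; exact hk),
          List.getElem?_append_left (by rw [hlen]; exact hk)]
      · rw [hij]
        simp only [v]
        rw [List.getElem?_append_right (by rw [hlen]; omega),
          List.getElem?_append_right (by rw [hlen]; omega), hlen, hlen]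
    have hparts : ∀ u ∈ Finset.range (n + 2), (I.filter fun i => v i = u).card ≤ (n + 2) ^ t := by
      intro u _
      by_cases hempty : (I.filter fun i => v i = u).Nonempty
      · obtain ⟨a, ha⟩ := hempty
        obtain ⟨haI, hau⟩ := Finset.mem_filter.1 ha
        have hsame : ∀ i ∈ I.filter (fun i => v i = u), ∀ j ∈ I.filter (fun i => v i = u),
            next P (l i ++ l j) c = next P (l a ++ l a) c := by
          intro i hi j hj
          obtain ⟨_, hiu⟩ := Finset.mem_filter.1 hi
          obtain ⟨_, hju⟩ := Finset.mem_filter.1 hj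
          refine hnext _ _ ?_ ?_
          · rw [List.length_append, List.length_append, hlen, hlen, hlen]
          · rw [hval i j (by rw [hiu, hju]), hval a a rfl, hiu, hau]
        refine ih (I.filter fun i => v i = u) (next P (l a ++ l a) c) ?_ ?_
        · intro i hi
          obtain ⟨t', ht', hrun⟩ := h1 i (Finset.mem_filter.1 hi).1
          rw [← hsame i hi i hi]
          cases hrun with
          | halt _ _ h =>
            rw [hans] at h
            exact absurd h (by simp)
          | step _ _ t'' h hrun' =>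
            have := hκ P (l i ++ l i) c
            exact ⟨t'', by omega, hrun'⟩
        · intro i hi j hj hij t' hrun
          rw [← hsame i hi j hj] at hrun
          exact h2 i (Finset.mem_filter.1 hi).1 j (Finset.mem_filter.1 hj).1 hij _
            (Run.step c true t' hans hrun)
      · rw [Finset.not_nonempty_iff_eq_empty] at hempty
        rw [hempty]
        simp
    have := Finset.card_le_mul_card_image_of_maps_to hmaps ((n + 2) ^ t) hparts
    rw [Finset.card_range] at this
    rw [pow_succ]
    exact this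

/-- **The number of isomorphism types bounds the running time from below.** -/
theorem types_le {κ : CostFn} (hκ : ∀ P w c, 1 ≤ κ P w c) (L : FOClass) (α : (ram κ).Alg)
    (hα : IsTest (ram κ) L α) (n : ℕ) : L.types n ≤ (n + 2) ^ maxTime (ram κ) L α n := by
  classical
  have hfin := finite_str L.sig n
  have hfinq : Finite (Quotient (L.isoSetoid n)) := inferInstance
  have := Fintype.ofFinite (Quotient (L.isoSetoid n))
  let A : Quotient (L.isoSetoid n) → Str L.sig n := fun q => q.out.1
  have hA : ∀ q, L.Mem (A q) := fun q => q.out.2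
  have hiso : ∀ q q', Iso (A q) (A q') → q = q' := by
    intro q q' h
    rw [← Quotient.out_eq q, ← Quotient.out_eq q']
    exact Quotient.sound h
  unfold FOClass.types
  rw [Nat.card_eq_fintype_card, ← Finset.card_univ]
  by_cases hne : Nonempty (Quotient (L.isoSetoid n))
  · obtain ⟨q0⟩ := hne
    refine card_le_of_runs hκ (P := α) (fun q => code (A q)) (N := (code (A q0)).length)
      (fun q => length_code_eq _ _) (fun q v hv => mem_code_le _ hv) _ Finset.univ
      ⟨0, fun _ => 0⟩ ?_ ?_
    · intro q _
      obtain ⟨b, t, hbt, hb⟩ := hα n (A q) (A q) (hA q) (hA q)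
      have hbtrue : b = true := hb.2 (Iso.refl _)
      subst hbtrue
      exact ⟨t, le_maxTime _ L α n _ _ (hA q) (hA q) _ _ hbt, hbt⟩
    · intro q _ q' _ hqq' t hrun
      obtain ⟨b, t', hbt, hb⟩ := hα n (A q) (A q') (hA q) (hA q')
      have := (Run.det hrun hbt).1
      exact hqq' (hiso q q' (hb.1 this.symm))
  · rw [not_nonempty_iff] at hne
    simp

/-- The conclusion of the assertion holds if `K` has at least `2 ^ (n ^ ε)` isomorphism types
(`ε = 1 / d`) and `J` has a polynomial time test. -/
theorem conclusion_of_many {κ : CostFn} (hκ : ∀ P w c, 1 ≤ κ P w c) (J K : FOClass)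
    (hJ : ∃ β : (ram κ).Alg, IsTest (ram κ) J β ∧
      ∃ C : ℕ, ∀ᶠ n in atTop, maxTime (ram κ) J β n ≤ C * n ^ C)
    (hK : ∃ d : ℕ, ∀ᶠ n in atTop, n ≤ Nat.log 2 (K.types n) ^ d) : Conclusion (ram κ) J K := by
  obtain ⟨β, hβ, C, hC⟩ := hJ
  obtain ⟨d, hd⟩ := hK
  refine ⟨Polynomial.C (C : ℝ) * Polynomial.X ^ (2 * d * C), fun α hα => ⟨β, hβ, ?_⟩⟩
  have hlim : Tendsto (fun l : ℕ => (l : ℝ) ^ (2 * d) / 2 ^ l) atTop (nhds 0) :=
    tendsto_pow_const_div_const_pow_of_one_lt (2 * d) (by norm_num)
  have hlim2 := hlim.eventually (gt_mem_nhds (show (0 : ℝ) < 1 / (3 ^ (2 * d)) by positivity))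
  filter_upwards [hC, hd, tendsto_log.eventually hlim2, eventually_ge_atTop 2] with n h1 h2 h3 h4
  obtain ⟨m, hm⟩ : ∃ m, m = maxTime (ram κ) K α n := ⟨_, rfl⟩
  have h5 := types_le hκ K α hα n
  rw [← hm] at h5 ⊢
  obtain ⟨l, hl⟩ : ∃ l, l = Nat.log 2 n := ⟨_, rfl⟩
  rw [← hl] at h3
  have hl1 : 1 ≤ l := hl ▸ log_pos h4
  have hlt : n < 2 ^ (l + 1) := hl ▸ lt_two_pow_log n
  have hpow : 2 ^ l ≤ n := by
    rw [hl]
    exact Nat.pow_log_le_self 2 (by omega)
  -- few types only if the running time is small
  have hT0 : K.types n ≠ 0 := by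
    intro h0
    rw [h0] at h2
    rcases Nat.eq_zero_or_pos d with hd0 | hd0
    · rw [hd0] at h2
      simp at h2
      omega
    · rw [Nat.log_zero_right, zero_pow (by omega)] at h2
      omega
  have h6 : Nat.log 2 (K.types n) ≤ 3 * l * m := by
    have h7 : 2 ^ Nat.log 2 (K.types n) ≤ 2 ^ (3 * l * m) := by
      calc 2 ^ Nat.log 2 (K.types n) ≤ K.types n := Nat.pow_log_le_self 2 hT0
        _ ≤ (n + 2) ^ m := h5
        _ ≤ (2 ^ (3 * l)) ^ m := by
            refine Nat.pow_le_pow_left ?_ m
            have : n + 2 ≤ 2 ^ (l + 2) := by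
              have : 2 ^ (l + 2) = 2 * 2 ^ (l + 1) := by ring
              omega
            exact this.trans (Nat.pow_le_pow_right (by norm_num) (by omega))
        _ = 2 ^ (3 * l * m) := (pow_mul 2 (3 * l) m).symm
    exact (Nat.pow_le_pow_iff_right (by norm_num)).1 h7
  have h8 : n ≤ (3 * l) ^ d * m ^ d := by
    rw [← mul_pow]
    exact h2.trans (Nat.pow_le_pow_left h6 d)
  have h9 : (3 * l) ^ (2 * d) ≤ n := by
    rw [div_lt_iff₀ (by positivity)] at h3
    have h10 : (3 * (l : ℝ)) ^ (2 * d) ≤ (2 : ℝ) ^ l := by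
      rw [mul_pow]
      calc (3 : ℝ) ^ (2 * d) * (l : ℝ) ^ (2 * d)
          ≤ 3 ^ (2 * d) * (1 / 3 ^ (2 * d) * 2 ^ l) :=
            mul_le_mul_of_nonneg_left h3.le (by positivity)
        _ = (2 : ℝ) ^ l := by field_simp
    have h11 : (3 * l) ^ (2 * d) ≤ 2 ^ l := by exact_mod_cast h10
    exact h11.trans hpow
  have h12 : n ≤ m ^ (2 * d) := by
    have h13 : n * n ≤ n * m ^ (2 * d) := by
      calc n * n ≤ ((3 * l) ^ d * m ^ d) * ((3 * l) ^ d * m ^ d) := Nat.mul_le_mul h8 h8
        _ = (3 * l) ^ (2 * d) * m ^ (2 * d) := by ring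
        _ ≤ n * m ^ (2 * d) := Nat.mul_le_mul_right _ h9
    exact Nat.le_of_mul_le_mul_left h13 (by omega)
  have h14 : maxTime (ram κ) J β n ≤ C * m ^ (2 * d * C) := by
    rw [pow_mul]
    exact h1.trans (Nat.mul_le_mul_left C (Nat.pow_le_pow_left h12 C))
  rw [Polynomial.eval_mul, Polynomial.eval_C, Polynomial.eval_pow, Polynomial.eval_X]
  exact_mod_cast h14

end Pool.Agent.H82.RA
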